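import Mathlib

/-!
# A greedy choice of residues (helper77)
-/

set_option autoImplicit false
set_option linter.all false

namespace Pool.Agent.H77.WZ

open Finset
open scoped Classical

/-- residues chosen one after the other, each avoiding as many points as the average -/
theorem greedy {ι V R : Type} (x₀ : R) (S : Finset ι) (N : ι → ℝ) (A : ι → Finset R) (ρ : ι → V → R)
    (hN : ∀ i ∈ S, 1 ≤ N i) (hA : ∀ i ∈ S, (A i).Nonempty ∧ ((A i).card : ℝ) ≤ N i) :
    ∀ T : Finset V, ∃ c : ι → R, (∀ i ∈ S, c i ∈ A i) ∧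
      ((T.filter (fun v => ∀ i ∈ S, ρ i v ≠ c i)).card : ℝ) ≤
        ∑ v ∈ T, ∏ i ∈ S.filter (fun i => ρ i v ∈ A i), (1 - 1 / N i) := by
  induction S using Finset.induction_on with
  | empty =>
    intro T
    exact ⟨fun _ => x₀, by simp, by simp⟩
  | @insert i S hi ih =>
    intro T
    have hne : ∀ j ∈ S, j ≠ i := fun j hj h => hi (h ▸ hj)
    have hN' : ∀ j ∈ S, 1 ≤ N j := fun j hj => hN j (mem_insert_of_mem hj)
    obtain ⟨hAi, hci⟩ := hA i (mem_insert_self i S)
    have hNi := hN i (mem_insert_self i S)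
    have hN0 : (0 : ℝ) < N i := by linarith
    obtain ⟨W, hW⟩ : ∃ W : V → ℝ, ∀ v, W v = ∏ j ∈ S.filter (fun j => ρ j v ∈ A j), (1 - 1 / N j) :=
      ⟨_, fun _ => rfl⟩
    have hW0 : ∀ v, 0 ≤ W v := by
      intro v
      rw [hW]
      refine prod_nonneg fun j hj => ?_
      have := hN' j (mem_filter.1 hj).1
      rw [sub_nonneg, div_le_one (by linarith)]
      exact this
    -- the choice
    have h1 : ∑ c ∈ A i, ((1 / N i) * ∑ v ∈ T.filter (fun v => ρ i v ∈ A i), W v) ≤
        ∑ c ∈ A i, ∑ v ∈ T.filter (fun v => ρ i v = c), W v := by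
      have h2 : ∑ c ∈ A i, ∑ v ∈ T.filter (fun v => ρ i v = c), W v =
          ∑ v ∈ T.filter (fun v => ρ i v ∈ A i), W v := by
        rw [← sum_fiberwise_of_maps_to (s := T.filter (fun v => ρ i v ∈ A i)) (t := A i)
          (g := fun v => ρ i v) (fun v hv => (mem_filter.1 hv).2)]
        refine sum_congr rfl fun c hc => sum_congr ?_ fun _ _ => rfl
        ext v
        simp only [mem_filter]
        constructor
        · rintro ⟨a, b⟩
          exact ⟨⟨a, b ▸ hc⟩, b⟩
        · rintro ⟨⟨a, -⟩, b⟩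
          exact ⟨a, b⟩
      rw [h2, sum_const, nsmul_eq_mul]
      have h3 : 0 ≤ ∑ v ∈ T.filter (fun v => ρ i v ∈ A i), W v := sum_nonneg fun v _ => hW0 v
      have h4 : ((A i).card : ℝ) * (1 / N i) ≤ 1 := by
        rw [mul_one_div, div_le_one hN0]
        exact hci
      nlinarith
    obtain ⟨c₀, hc₀, hc₁⟩ := exists_le_of_sum_le hAi h1
    obtain ⟨c', hc', hle⟩ := ih hN' (fun j hj => hA j (mem_insert_of_mem hj))
      (T.filter (fun v => ρ i v ≠ c₀))
    refine ⟨Function.update c' i c₀, ?_, ?_⟩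
    · intro j hj
      rcases mem_insert.1 hj with rfl | hj
      · rw [Function.update_self]
        exact hc₀
      · rw [Function.update_of_ne (hne j hj)]
        exact hc' j hj
    · have e1 : T.filter (fun v => ∀ j ∈ insert i S, ρ j v ≠ Function.update c' i c₀ j) =
          (T.filter (fun v => ρ i v ≠ c₀)).filter (fun v => ∀ j ∈ S, ρ j v ≠ c' j) := by
        ext v
        simp only [mem_filter, mem_insert, forall_eq_or_imp, Function.update_self]
        constructor
        · rintro ⟨a, b, c⟩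
          refine ⟨⟨a, b⟩, fun j hj => ?_⟩
          have := c j hj
          rwa [Function.update_of_ne (hne j hj)] at this
        · rintro ⟨⟨a, b⟩, c⟩
          refine ⟨a, b, fun j hj => ?_⟩
          rw [Function.update_of_ne (hne j hj)]
          exact c j hj
      rw [e1]
      refine hle.trans ?_
      have e2 : ∑ v ∈ T.filter (fun v => ρ i v ≠ c₀), W v =
          ∑ v ∈ T, W v - ∑ v ∈ T.filter (fun v => ρ i v = c₀), W v := by
        rw [← sum_filter_add_sum_filter_not T (fun v => ρ i v = c₀) W]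
        ring
      have e3 : ∑ v ∈ T, ∏ j ∈ (insert i S).filter (fun j => ρ j v ∈ A j), (1 - 1 / N j) =
          ∑ v ∈ T, W v - 1 / N i * ∑ v ∈ T.filter (fun v => ρ i v ∈ A i), W v := by
        rw [mul_sum, sum_filter, ← sum_sub_distrib]
        refine sum_congr rfl fun v _ => ?_
        rw [filter_insert]
        split_ifs with h
        · rw [prod_insert (by simp [hi]), ← hW]
          ring
        · rw [← hW, sub_zero]
      rw [e3, sum_congr rfl (fun v _ => (hW v).symm), e2]
      linarith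

/-- the same for subsets -/
theorem greedy' {ι V R : Type} (x₀ : R) (S : Finset ι) (N : ι → ℝ) (A : ι → Finset R) (ρ : ι → V → R)
    (hN : ∀ i ∈ S, 1 ≤ N i) (hA : ∀ i ∈ S, (A i).Nonempty ∧ ((A i).card : ℝ) ≤ N i) (T : Finset V) :
    ∃ c : ι → R, (∀ i ∈ S, c i ∈ A i) ∧ ∀ T' ⊆ T, (∀ v ∈ T', ∀ i ∈ S, ρ i v ≠ c i) →
      (T'.card : ℝ) ≤ ∑ v ∈ T, ∏ i ∈ S.filter (fun i => ρ i v ∈ A i), (1 - 1 / N i) := by
  obtain ⟨c, hc, h⟩ := greedy x₀ S N A ρ hN hA T
  refine ⟨c, hc, fun T' hT' hr => le_trans ?_ h⟩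
  refine Nat.cast_le.2 (card_le_card fun v hv => ?_)
  exact mem_filter.2 ⟨hT' hv, hr v hv⟩

end Pool.Agent.H77.WZ
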