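import Pool.Agent.H77.WZ.G9

/-!
# Admissible distances of pairs (helper77)
-/

set_option autoImplicit false
set_option linter.all false

namespace Pool.Agent.H77.WZ

open Polynomial Finset UniqueFactorizationMonoid
open scoped Classical
open Pool.Agent.H694.Typ

variable {K : Type} [Field K] [Fintype K]

theorem adm_pair [CharP K 2] {H : K[X]} (hH2 : Fintype.card K = 2 → X * (X + 1) ∣ H) (P : K[X])
    (hP : Irreducible P) : ∃ x : K[X], ¬ P ∣ x ∧ ¬ P ∣ x + H := by
  by_contra hcon
  push Not at hcon
  have h0 : ∀ x : K[X], P ∣ x ∨ P ∣ x + H := by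
    intro x
    by_cases h : P ∣ x
    · exact Or.inl h
    · exact Or.inr (hcon x h)
  have hone : ¬ P ∣ (1 : K[X]) := fun h => hP.not_isUnit (isUnit_of_dvd_one h)
  have h1 : P ∣ 1 + H := (h0 1).resolve_left hone
  have hcard : Fintype.card K = 2 := by
    have hall : ∀ x : K, x = 0 ∨ x = 1 := by
      intro x
      rcases h0 (C x) with h | h
      · left
        by_contra hx
        exact hone (h.trans (isUnit_C.2 (IsUnit.mk0 _ hx)).dvd)
      · right
        have h2 : P ∣ C x - 1 := by
          have h3 := dvd_sub h h1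
          rwa [add_sub_add_right_eq_sub] at h3
        by_contra hx
        have h4 : C x - 1 = C (x - 1) := by simp
        rw [h4] at h2
        exact hone (h2.trans (isUnit_C.2 (IsUnit.mk0 _ (sub_ne_zero.2 hx))).dvd)
    have h5 : Fintype.card K ≤ 2 := by
      have h6 : (Finset.univ : Finset K) ⊆ {0, 1} := by
        intro x _
        simpa using hall x
      have h7 := Finset.card_le_card h6
      exact h7.trans Finset.card_le_two
    have h8 := Fintype.one_lt_card (α := K)
    omega
  have h2 : P ∣ X ∨ P ∣ X + 1 := by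
    rcases h0 X with h | h
    · left; exact h
    · right
      have h3 := dvd_sub h h1
      rw [add_sub_add_right_eq_sub, CharTwo.sub_eq_add] at h3
      exact h3
  have h3 : P ∣ X * (X + 1) := by
    rcases h2 with h | h
    · exact h.mul_right _
    · exact h.mul_left _
  have h4 : P ∣ H := h3.trans (hH2 hcard)
  have h5 : P ∣ 1 := by
    have h6 := dvd_sub h1 h4
    rwa [add_sub_cancel_right] at h6
  exact hone h5

/-- no four classes cover everything modulo a polynomial of degree at least `3` -/
theorem adm_large {P : K[X]} (hP : 3 ≤ P.natDegree) (α : Fin 4 → K[X]) :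
    ∃ x : K[X], ∀ i, ¬ P ∣ x + α i := by
  by_contra hcon
  push Not at hcon
  choose g hg using hcon
  have hinj : Function.Injective (fun c : Fin 3 → K => g (pol c)) := by
    intro c c' h
    have h1 := hg (pol c)
    have h2 := hg (pol c')
    have h : g (pol c) = g (pol c') := h
    rw [h] at h1
    have h3 := dvd_sub h1 h2
    rw [add_sub_add_right_eq_sub] at h3
    have h4 : (pol c - pol c' : K[X]).degree < P.degree := by
      have hP0 : P ≠ 0 := by
        rintro rfl
        rw [natDegree_zero] at hP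
        omega
      refine lt_of_lt_of_le (lt_of_le_of_lt (degree_sub_le _ _) (max_lt (pol_degree c) (pol_degree c'))) ?_
      rw [degree_eq_natDegree hP0]
      exact_mod_cast hP
    exact pol_inj (sub_eq_zero.1 (eq_zero_of_dvd_of_degree_lt h3 h4))
  have h1 := Fintype.card_le_of_injective _ hinj
  rw [Fintype.card_fun, Fintype.card_fin, Fintype.card_fin] at h1
  have h2 : 2 ^ 3 ≤ Fintype.card K ^ 3 := Nat.pow_le_pow_left (Fintype.one_lt_card (α := K)) 3
  omega

theorem exists_u [CharP K 2] (M a b H : K[X]) (hM : M.Monic) (hH2 : Fintype.card K = 2 → X * (X + 1) ∣ H)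
    (ha : IsCoprime a M) (haH : IsCoprime (a + H) M) (hb : IsCoprime b M) (hbH : IsCoprime (b + H) M) :
    ∃ u : K[X], u ≠ 0 ∧ u ≠ H ∧ M ∣ u - (b - a) ∧ ∀ P : K[X], P.Monic → Irreducible P →
      ∃ x : K[X], ∀ i, ¬ P ∣ x + (![0, H, u, u + H] : Fin 4 → K[X]) i := by
  obtain ⟨W, hW⟩ : ∃ W : K[X], W = ∏ P ∈ (PU K 2).filter (fun P => ¬ P ∣ M), P := ⟨_, rfl⟩
  have hWm : W.Monic := by
    rw [hW]
    exact monic_prod_of_monic _ _ fun P hP => (mem_PU.1 (mem_filter.1 hP).1).1
  have hWM : IsCoprime W M := by
    rw [hW]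
    exact IsCoprime.prod_left fun P hP =>
      ((mem_PU.1 (mem_filter.1 hP).1).2.1.coprime_iff_not_dvd).2 (mem_filter.1 hP).2
  obtain ⟨x, y, hxy⟩ := hWM
  obtain ⟨u₀, hu₀⟩ : ∃ u₀ : K[X], u₀ = (b - a) * (x * W) := ⟨_, rfl⟩
  obtain ⟨j, hj⟩ : ∃ j : ℕ, j = u₀.natDegree + H.natDegree + 1 := ⟨_, rfl⟩
  obtain ⟨u, hu⟩ : ∃ u : K[X], u = W * M * X ^ j + u₀ := ⟨_, rfl⟩
  have hmon : (W * M * X ^ j : K[X]).Monic := (hWm.mul hM).mul (monic_X_pow j)
  have hdeg : (W * M * X ^ j : K[X]).natDegree = (W * M).natDegree + j := by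
    rw [(hWm.mul hM).natDegree_mul (monic_X_pow j), natDegree_X_pow]
  have hud : u.natDegree = (W * M).natDegree + j := by
    rw [hu, natDegree_add_eq_left_of_natDegree_lt (by rw [hdeg]; omega), hdeg]
  have huM : M ∣ u - (b - a) := ⟨W * X ^ j - y * (b - a), by
    rw [hu, hu₀]
    linear_combination (b - a) * hxy⟩
  have huW : W ∣ u := ⟨M * X ^ j + (b - a) * x, by
    rw [hu, hu₀]
    ring⟩
  refine ⟨u, ?_, ?_, huM, fun P hPm hP => ?_⟩
  · intro h
    rw [h, natDegree_zero] at hud
    omega
  · intro h
    rw [h] at hud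
    omega
  · by_cases hPM : P ∣ M
    · have key : ∀ z : K[X], IsCoprime z M → ¬ P ∣ z := fun z hz hd =>
        hP.not_isUnit (hz.isUnit_of_dvd' hd hPM)
      obtain ⟨w, hw⟩ := huM
      refine ⟨a, fun i => ?_⟩
      fin_cases i
      · show ¬ P ∣ a + 0
        rw [add_zero]
        exact key a ha
      · exact key _ haH
      · show ¬ P ∣ a + u
        refine key _ ?_
        have e2 : a + u = b + M * w := by linear_combination hw
        rw [e2]
        exact hb.add_mul_left_left w
      · show ¬ P ∣ a + (u + H)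
        refine key _ ?_
        have e3 : a + (u + H) = (b + H) + M * w := by linear_combination hw
        rw [e3]
        exact hbH.add_mul_left_left w
    · by_cases hd : P.natDegree ≤ 2
      · have hPu : P ∣ u := by
          refine dvd_trans ?_ huW
          rw [hW]
          exact dvd_prod_of_mem _ (mem_filter.2 ⟨mem_PU.2 ⟨hPm, hP, hd⟩, hPM⟩)
        obtain ⟨z, hz1, hz2⟩ := adm_pair hH2 P hP
        refine ⟨z, fun i => ?_⟩
        fin_cases i
        · show ¬ P ∣ z + 0
          rwa [add_zero]
        · exact hz2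
        · show ¬ P ∣ z + u
          exact fun h => hz1 ((dvd_add_left hPu).1 h)
        · show ¬ P ∣ z + (u + H)
          intro h
          apply hz2
          have e : z + (u + H) = (z + H) + u := by ring
          rw [e] at h
          exact (dvd_add_left hPu).1 h
      · exact adm_large (by omega) _

end Pool.Agent.H77.WZ
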