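import Pool.Agent.H985.CG.Phi
import Pool.Agent.H985.CG.Base0
import Pool.Agent.H77.WZ.G1

/-!
# Multiples of large primes in residue classes (helper77)
-/

set_option autoImplicit false
set_option linter.all false

namespace Pool.Agent.H77.WZ

open Polynomial Finset UniqueFactorizationMonoid
open scoped Classical
open Pool.Agent.H694.Typ
open Pool.Agent.H985.CG

variable {K : Type} [Field K] [Fintype K]

/-- the number of reduced residues modulo an irreducible polynomial -/
theorem phi_irr {P : K[X]} (hP : Irreducible P) :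
    (Fintype.card K : ℝ) ^ P.natDegree ≤ 2 * (phiQ P : ℝ) := by
  have hq := q_ge (k := K)
  have h1 : (univ : Finset (Fin P.natDegree → K)).image pol ⊆ insert 0 (PhiG.Rd P) := by
    intro r hr
    obtain ⟨c, -, rfl⟩ := mem_image.1 hr
    rw [mem_insert]
    by_cases h0 : (pol c : K[X]) = 0
    · exact Or.inl h0
    · right
      rw [PhiG.mem_Rd]
      have hd : (pol c : K[X]).degree < P.degree := by
        rw [degree_eq_natDegree hP.ne_zero]
        exact pol_degree c
      refine ⟨hd, ?_⟩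
      refine IsCoprime.symm ((hP.coprime_iff_not_dvd).2 fun h => h0 ?_)
      exact eq_zero_of_dvd_of_degree_lt h hd
  have h2 := card_le_card h1
  rw [card_image_of_injective _ pol_inj, card_univ, Fintype.card_fun, Fintype.card_fin] at h2
  have h3 := h2.trans (card_insert_le _ _)
  rw [PhiG.card_Rd] at h3
  have h4 : (Fintype.card K : ℝ) ^ P.natDegree ≤ (phiQ P : ℝ) + 1 := by exact_mod_cast h3
  have h5 : (2 : ℝ) ≤ (Fintype.card K : ℝ) ^ P.natDegree := by
    calc (2 : ℝ) ≤ (Fintype.card K : ℝ) ^ 1 := by rw [pow_one]; exact hq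
      _ ≤ _ := pow_le_pow_right₀ (by linarith) hP.natDegree_pos
  linarith

/-- primes in a residue class modulo an irreducible polynomial -/
theorem cls [CharP K 2] {P : K[X]} (hPm : P.Monic) (hP : Irreducible P) : ∃ j₀ : ℕ, ∀ j : ℕ, j₀ ≤ j →
    ∀ s β : K[X], ¬ P ∣ s →
      (((Irn K j).filter (fun p => P ∣ s * p - β)).card : ℝ) ≤
        4 * wt K P.natDegree * ((Fintype.card K : ℝ) ^ j / j) := by
  have hq := q_ge (k := K)
  have hφ := phi_irr hP
  have hqP : (0 : ℝ) < (Fintype.card K : ℝ) ^ P.natDegree := by positivity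
  have hφ0 : (0 : ℝ) < (phiQ P : ℝ) := by linarith
  obtain ⟨κ, hκ, n₀, h⟩ := cntp s_cntg K 0 P (fun i => i.elim0) (1 / (phiQ P : ℝ)) hPm
    (fun i => i.elim0) (by positivity)
  obtain ⟨n₁, hn₁⟩ := exists_nat_gt (1 / κ)
  refine ⟨n₀ + n₁ + P.natDegree + 1, fun j hj s β hs => ?_⟩
  have hj0 : (0 : ℝ) < j := by exact_mod_cast (show 0 < j by omega)
  have hκj : ((1 : ℕ) : ℝ) ≤ κ * j := by
    have h2 : (n₁ : ℝ) ≤ j := by exact_mod_cast (show n₁ ≤ j by omega)
    have h3 : 1 / κ ≤ j := le_trans hn₁.le h2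
    rw [div_le_iff₀ hκ] at h3
    push_cast
    linarith
  have hcs : IsCoprime P s := (hP.coprime_iff_not_dvd).2 hs
  obtain ⟨u, v, huv⟩ := hcs
  have hset : (Irn K j).filter (fun p => P ∣ s * p - β) ⊆
      (Irn K j).filter (fun p => P ∣ p - v * β) := by
    intro p hp
    rw [mem_filter] at hp ⊢
    refine ⟨hp.1, ?_⟩
    obtain ⟨w, hw⟩ := hp.2
    exact ⟨u * p + v * w, by linear_combination (-p) * huv + v * hw⟩
  have hcard : (((Irn K j).filter (fun p => P ∣ s * p - β)).card : ℝ) ≤
      (((Irn K j).filter (fun p => P ∣ p - v * β)).card : ℝ) := by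
    exact_mod_cast card_le_card hset
  refine hcard.trans ?_
  by_cases hc : IsCoprime (v * β) P
  · have h1 := h j (by omega) 1 (v * β) (fun i => i.elim0) le_rfl hκj hc
    rw [PhiG.filt, PhiG.vg_zero, one_mul] at h1
    have h2 := (abs_le.1 h1).2
    have h3 : (Fintype.card K : ℝ) ^ j / (j * (phiQ P : ℝ)) + 1 / (phiQ P : ℝ) *
        ((Fintype.card K : ℝ) ^ j / j) = 2 / (phiQ P : ℝ) * ((Fintype.card K : ℝ) ^ j / j) := by
      field_simp
      ring
    have h4 : (((Irn K j).filter (fun p => P ∣ p - v * β)).card : ℝ) ≤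
        2 / (phiQ P : ℝ) * ((Fintype.card K : ℝ) ^ j / j) := by linarith
    refine h4.trans (mul_le_mul_of_nonneg_right ?_ (by positivity))
    unfold wt
    rw [div_le_iff₀ hφ0]
    have h5 : 4 * ((Fintype.card K : ℝ) ^ P.natDegree)⁻¹ * (phiQ P : ℝ) =
        (2 * (2 * (phiQ P : ℝ))) / (Fintype.card K : ℝ) ^ P.natDegree := by
      field_simp
      ring
    rw [h5, le_div_iff₀ hqP]
    linarith
  · have h1 : (Irn K j).filter (fun p => P ∣ p - v * β) = ∅ := by
      rw [filter_eq_empty_iff]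
      intro p hp hd
      apply hc
      have h2 := PhiG.cop hPm (show P.natDegree < j by omega) hp
      obtain ⟨w, hw⟩ := hd
      have e : v * β = p + P * (-w) := by linear_combination -hw
      rw [e]
      exact h2.add_mul_left_left _
    rw [h1, card_empty, Nat.cast_zero]
    unfold wt
    positivity

/-- the pairs `s, p` with `s p` of degree `n`, `p` prime, `deg s < m` -/
noncomputable def Pr (K : Type) [Field K] [Fintype K] (n m : ℕ) : Finset (K[X] × K[X]) :=
  (range m).biUnion fun e => Mn K e ×ˢ Irn K (n - e)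

theorem mem_Pr {n m : ℕ} {t : K[X] × K[X]} : t ∈ Pr K n m ↔
    ∃ e < m, t.1 ∈ Mn K e ∧ t.2 ∈ Irn K (n - e) := by
  unfold Pr
  rw [mem_biUnion]
  constructor
  · rintro ⟨e, he, h⟩
    rw [mem_product] at h
    exact ⟨e, mem_range.1 he, h⟩
  · rintro ⟨e, he, h⟩
    exact ⟨e, mem_range.2 he, mem_product.2 h⟩

/-- the size of the set of pairs -/
noncomputable def T0 (K : Type) [Field K] [Fintype K] (n m : ℕ) : ℝ :=
  m * ((Fintype.card K : ℝ) ^ n / ((n : ℝ) + 1 - m))

theorem irn_real {j : ℕ} (hj : 0 < j) : ((Irn K j).card : ℝ) ≤ (Fintype.card K : ℝ) ^ j / j := by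
  rw [le_div_iff₀ (by exact_mod_cast hj), mul_comm]
  exact_mod_cast irn_one_le (k := K) hj

theorem pow_part {n m e : ℕ} (hm : m ≤ n) (he : e < m) :
    (Fintype.card K : ℝ) ^ e * ((Fintype.card K : ℝ) ^ (n - e) / ((n - e : ℕ) : ℝ)) ≤
      (Fintype.card K : ℝ) ^ n / ((n : ℝ) + 1 - m) := by
  have hq := q_ge (k := K)
  have h1 : (Fintype.card K : ℝ) ^ e * (Fintype.card K : ℝ) ^ (n - e) = (Fintype.card K : ℝ) ^ n := by
    rw [← pow_add]
    congr 1
    omega
  rw [← mul_div_assoc, h1, Nat.cast_sub (by omega)]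
  have h2 : (e : ℝ) + 1 ≤ m := by exact_mod_cast he
  have h3 : (m : ℝ) ≤ n := by exact_mod_cast hm
  exact div_le_div_of_nonneg_left (by positivity) (by linarith) (by linarith)

theorem card_Pr {n m : ℕ} (hm : m ≤ n) : ((Pr K n m).card : ℝ) ≤ T0 K n m := by
  unfold Pr
  have h1 : (((range m).biUnion fun e => Mn K e ×ˢ Irn K (n - e)).card : ℝ) ≤
      ∑ e ∈ range m, ((Mn K e ×ˢ Irn K (n - e)).card : ℝ) := by
    exact_mod_cast card_biUnion_le
  refine h1.trans ?_
  have h2 : ∀ e ∈ range m, ((Mn K e ×ˢ Irn K (n - e)).card : ℝ) ≤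
      (Fintype.card K : ℝ) ^ n / ((n : ℝ) + 1 - m) := by
    intro e he
    rw [mem_range] at he
    refine le_trans ?_ (pow_part hm he)
    rw [card_product, card_Mn]
    push_cast
    exact mul_le_mul_of_nonneg_left (irn_real (by omega)) (by positivity)
  refine (sum_le_sum h2).trans ?_
  rw [sum_const, card_range, nsmul_eq_mul]
  exact le_rfl

/-- the pairs with the product in a residue class -/
theorem cls_Pr [CharP K 2] (m : ℕ) {P : K[X]} (hPm : P.Monic) (hP : Irreducible P) :
    ∃ n₀ : ℕ, ∀ n : ℕ, n₀ ≤ n → m ≤ n → ∀ β : K[X],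
      (((Pr K n m).filter (fun t => P ∣ t.1 * t.2 - β)).card : ℝ) ≤
        5 * wt K P.natDegree * T0 K n m := by
  have hq := q_ge (k := K)
  obtain ⟨j₀, hj⟩ := cls hPm hP
  refine ⟨j₀ + m, fun n hn hm β => ?_⟩
  have hw := wt_nonneg (k := K) P.natDegree
  have h1 : (((Pr K n m).filter (fun t => P ∣ t.1 * t.2 - β)).card : ℝ) ≤
      ∑ e ∈ range m, (((Mn K e ×ˢ Irn K (n - e)).filter (fun t => P ∣ t.1 * t.2 - β)).card : ℝ) := by
    unfold Pr
    rw [filter_biUnion]
    exact_mod_cast card_biUnion_le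
  refine h1.trans ?_
  have h2 : ∀ e ∈ range m,
      (((Mn K e ×ˢ Irn K (n - e)).filter (fun t => P ∣ t.1 * t.2 - β)).card : ℝ) ≤
      5 * wt K P.natDegree * ((Fintype.card K : ℝ) ^ n / ((n : ℝ) + 1 - m)) := by
    intro e he
    rw [mem_range] at he
    have h3 : ((Mn K e ×ˢ Irn K (n - e)).filter (fun t => P ∣ t.1 * t.2 - β)) ⊆
        ((Mn K e).filter (fun s => P ∣ s)) ×ˢ Irn K (n - e) ∪
          (Mn K e).biUnion (fun s => if P ∣ s then ∅ else
            ({s} : Finset K[X]) ×ˢ ((Irn K (n - e)).filter (fun p => P ∣ s * p - β))) := by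
      rintro ⟨s, p⟩ h
      rw [mem_filter, mem_product] at h
      rw [mem_union]
      by_cases hs : P ∣ s
      · left
        rw [mem_product, mem_filter]
        exact ⟨⟨h.1.1, hs⟩, h.1.2⟩
      · right
        rw [mem_biUnion]
        refine ⟨s, h.1.1, ?_⟩
        rw [if_neg hs, mem_product, mem_singleton, mem_filter]
        exact ⟨rfl, h.1.2, h.2⟩
    have h4 : (((Mn K e ×ˢ Irn K (n - e)).filter (fun t => P ∣ t.1 * t.2 - β)).card : ℝ) ≤
        (((Mn K e).filter (fun s => P ∣ s)).card : ℝ) * ((Irn K (n - e)).card : ℝ) +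
          ∑ s ∈ Mn K e, 4 * wt K P.natDegree *
            ((Fintype.card K : ℝ) ^ (n - e) / ((n - e : ℕ) : ℝ)) := by
      have h5 := (card_le_card h3).trans (card_union_le _ _)
      rw [card_product] at h5
      have h6 : (((Mn K e).biUnion (fun s => if P ∣ s then ∅ else
            ({s} : Finset K[X]) ×ˢ ((Irn K (n - e)).filter (fun p => P ∣ s * p - β)))).card : ℝ) ≤
          ∑ s ∈ Mn K e, 4 * wt K P.natDegree *
            ((Fintype.card K : ℝ) ^ (n - e) / ((n - e : ℕ) : ℝ)) := by
        have h7 := card_biUnion_le (s := Mn K e) (t := fun s => if P ∣ s then ∅ else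
            ({s} : Finset K[X]) ×ˢ ((Irn K (n - e)).filter (fun p => P ∣ s * p - β)))
        have h8 : (((Mn K e).biUnion (fun s => if P ∣ s then ∅ else
            ({s} : Finset K[X]) ×ˢ ((Irn K (n - e)).filter (fun p => P ∣ s * p - β)))).card : ℝ) ≤
            ∑ s ∈ Mn K e, ((if P ∣ s then ∅ else ({s} : Finset K[X]) ×ˢ
              ((Irn K (n - e)).filter (fun p => P ∣ s * p - β)) : Finset (K[X] × K[X])).card : ℝ) := by
          exact_mod_cast h7
        refine h8.trans (sum_le_sum fun s _ => ?_)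
        split_ifs with hs
        · rw [card_empty, Nat.cast_zero]
          positivity
        · rw [card_product, card_singleton, one_mul]
          exact hj (n - e) (by omega) s β hs
      have h9 : (((Mn K e ×ˢ Irn K (n - e)).filter (fun t => P ∣ t.1 * t.2 - β)).card : ℝ) ≤
          (((Mn K e).filter (fun s => P ∣ s)).card : ℝ) * ((Irn K (n - e)).card : ℝ) +
          (((Mn K e).biUnion (fun s => if P ∣ s then ∅ else
            ({s} : Finset K[X]) ×ˢ ((Irn K (n - e)).filter (fun p => P ∣ s * p - β)))).card : ℝ) := by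
        exact_mod_cast h5
      linarith
    refine h4.trans ?_
    rw [sum_const, card_Mn, nsmul_eq_mul]
    push_cast
    have h10 := card_dvd_le (k := K) (n := e) hPm
    have h11 := irn_real (K := K) (show 0 < n - e by omega)
    have h12 : (0 : ℝ) ≤ (Fintype.card K : ℝ) ^ (n - e) / ((n - e : ℕ) : ℝ) := by positivity
    have h13 : (((Mn K e).filter (fun s => P ∣ s)).card : ℝ) * ((Irn K (n - e)).card : ℝ) ≤
        ((Fintype.card K : ℝ) ^ e * wt K P.natDegree) *
          ((Fintype.card K : ℝ) ^ (n - e) / ((n - e : ℕ) : ℝ)) :=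
      mul_le_mul h10 h11 (by positivity) (by positivity)
    have h14 := mul_le_mul_of_nonneg_left (pow_part (K := K) hm he)
      (show (0 : ℝ) ≤ 5 * wt K P.natDegree by positivity)
    have h15 : (Fintype.card K : ℝ) ^ e * (4 * wt K P.natDegree *
        ((Fintype.card K : ℝ) ^ (n - e) / ((n - e : ℕ) : ℝ))) +
        ((Fintype.card K : ℝ) ^ e * wt K P.natDegree) *
          ((Fintype.card K : ℝ) ^ (n - e) / ((n - e : ℕ) : ℝ)) = 5 * wt K P.natDegree *
        ((Fintype.card K : ℝ) ^ e * ((Fintype.card K : ℝ) ^ (n - e) / ((n - e : ℕ) : ℝ))) := by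
      ring
    linarith
  refine (sum_le_sum h2).trans ?_
  rw [sum_const, card_range, nsmul_eq_mul]
  unfold T0
  refine le_of_eq ?_
  ring

end Pool.Agent.H77.WZ
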