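import Pool.Agent.H77.WZ.G2

/-!
# The choice of the residues modulo the small primes (helper77)
-/

set_option autoImplicit false
set_option linter.all false

namespace Pool.Agent.H77.WZ

open Polynomial Finset UniqueFactorizationMonoid
open scoped Classical
open Pool.Agent.H694.Typ
open Pool.Agent.H985.CG

variable {K : Type} [Field K] [Fintype K]

theorem sum_wt_sq (Y : ℕ) : ∑ P ∈ PU K Y, wt K P.natDegree * wt K P.natDegree ≤ 1 := by
  have hq := q_ge (k := K)
  rw [sum_PU]
  have h : ∀ j ∈ Finset.Icc 1 Y, ∑ P ∈ Irn K j, wt K P.natDegree * wt K P.natDegree ≤ (1 / 2 : ℝ) ^ j := by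
    intro j hj
    rw [mem_Icc] at hj
    rw [sum_congr rfl (fun P hP => by rw [(mem_Irn.1 hP).2.1]), sum_const, nsmul_eq_mul]
    have h1 := irn_real (K := K) (j := j) (by omega)
    have hj1 : (1 : ℝ) ≤ j := by exact_mod_cast hj.1
    have hpos : (0 : ℝ) < (Fintype.card K : ℝ) ^ j := by positivity
    have h2 : (Fintype.card K : ℝ) ^ j / j ≤ (Fintype.card K : ℝ) ^ j := div_le_self hpos.le hj1
    have h3 : wt K j = ((Fintype.card K : ℝ) ^ j)⁻¹ := rfl
    have h4 : ((Irn K j).card : ℝ) * (wt K j * wt K j) ≤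
        (Fintype.card K : ℝ) ^ j * (wt K j * wt K j) :=
      mul_le_mul_of_nonneg_right (h1.trans h2) (by rw [h3]; positivity)
    refine h4.trans ?_
    rw [h3, ← mul_assoc, mul_inv_cancel₀ hpos.ne', one_mul, one_div, inv_pow]
    exact inv_anti₀ (by positivity) (pow_le_pow_left₀ (by norm_num) hq _)
  refine (sum_le_sum h).trans ?_
  have h2 : ∀ n : ℕ, ∑ j ∈ Finset.Icc 1 n, (1 / 2 : ℝ) ^ j = 1 - (1 / 2 : ℝ) ^ n := by
    intro n
    induction n with
    | zero => simp
    | succ n ih =>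
      rw [sum_Icc_succ_top (by omega), ih, pow_succ]
      ring
  rw [h2]
  have : (0 : ℝ) ≤ (1 / 2 : ℝ) ^ Y := by positivity
  linarith

/-- all residues modulo `P` -/
noncomputable def Al (K : Type) [Field K] [Fintype K] (P : K[X]) : Finset K[X] :=
  (univ : Finset (Fin P.natDegree → K)).image pol

theorem mem_Al {P r : K[X]} (hP : P ≠ 0) : r ∈ Al K P ↔ r.degree < P.degree := by
  unfold Al
  rw [mem_image, degree_eq_natDegree hP]
  constructor
  · rintro ⟨c, -, rfl⟩
    exact pol_degree c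
  · intro h
    obtain ⟨c, hc⟩ := exists_pol h
    exact ⟨c, mem_univ _, hc⟩

theorem card_Al (P : K[X]) : ((Al K P).card : ℝ) = (Fintype.card K : ℝ) ^ P.natDegree := by
  unfold Al
  rw [card_image_of_injective _ pol_inj, card_univ, Fintype.card_fun, Fintype.card_fin]
  push_cast
  rfl

theorem mod_dvd (p M : K[X]) : M ∣ p - p %ₘ M :=
  ⟨p /ₘ M, by linear_combination -(modByMonic_add_div p M)⟩

/-- the constant -/
theorem exp_le {x : ℝ} (hx : 0 < x) : Real.exp (-x) ≤ 1 / x := by
  rw [Real.exp_neg, ← one_div]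
  have := Real.add_one_le_exp x
  exact one_div_le_one_div_of_le hx (by linarith)

/-- **The residues modulo the small primes.** -/
theorem small [CharP K 2] (m k Y : ℕ) (hL : 0 < La K Y) : ∃ n₀ : ℕ, ∀ n : ℕ, n₀ ≤ n → m ≤ n →
    ∀ β : Fin k → K[X], (∀ P ∈ PU K Y, ∃ x : K[X], ∀ i, ¬ P ∣ x - β i) →
      ∃ c : K[X] → K[X], (∀ P ∈ PU K Y, ∀ i, ¬ P ∣ c P - β i) ∧
        (((Pr K n m).filter (fun t => ∀ P ∈ PU K Y, ¬ P ∣ t.1 * t.2 - c P)).card : ℝ) ≤
          (2 + 10 * k) / La K Y * T0 K n m := by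
  have hq := q_ge (k := K)
  have hPU : ∀ P ∈ PU K Y, P.Monic ∧ Irreducible P := fun P hP =>
    ⟨(mem_PU.1 hP).1, (mem_PU.1 hP).2.1⟩
  have hex : ∀ P : K[X], ∃ n₀ : ℕ, P ∈ PU K Y → ∀ n : ℕ, n₀ ≤ n → m ≤ n → ∀ β : K[X],
      (((Pr K n m).filter (fun t => P ∣ t.1 * t.2 - β)).card : ℝ) ≤
        5 * wt K P.natDegree * T0 K n m := by
    intro P
    by_cases hP : P ∈ PU K Y
    · obtain ⟨n₀, h⟩ := cls_Pr (K := K) m (hPU P hP).1 (hPU P hP).2
      exact ⟨n₀, fun _ => h⟩
    · exact ⟨0, fun h => absurd h hP⟩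
  choose N₀ hN₀ using hex
  refine ⟨(PU K Y).sup N₀, fun n hn hm β hβ => ?_⟩
  have hcl : ∀ P ∈ PU K Y, ∀ β : K[X], (((Pr K n m).filter (fun t => P ∣ t.1 * t.2 - β)).card : ℝ) ≤
        5 * wt K P.natDegree * T0 K n m := fun P hP =>
    hN₀ P hP n ((Finset.le_sup (f := N₀) hP).trans hn) hm
  have hT0 : 0 ≤ T0 K n m := by
    unfold T0
    have : (m : ℝ) ≤ n := by exact_mod_cast hm
    have h1 : (0 : ℝ) ≤ (n : ℝ) + 1 - m := by linarith
    positivity
  obtain ⟨A, hA⟩ : ∃ A : K[X] → Finset K[X], ∀ P, A P = (Al K P).filter (fun r => ∀ i, ¬ P ∣ r - β i) :=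
    ⟨_, fun _ => rfl⟩
  obtain ⟨c, hc, hle⟩ := greedy' (0 : K[X]) (PU K Y) (fun P => (Fintype.card K : ℝ) ^ P.natDegree) A
    (fun P (t : K[X] × K[X]) => (t.1 * t.2) %ₘ P)
    (fun P hP => one_le_pow₀ (by linarith)) (by
      intro P hP
      obtain ⟨hPm, hPi⟩ := hPU P hP
      constructor
      · obtain ⟨x, hx⟩ := hβ P hP
        refine ⟨x %ₘ P, ?_⟩
        rw [hA, mem_filter, mem_Al hPi.ne_zero]
        refine ⟨degree_modByMonic_lt x hPm, fun i hd => hx i ?_⟩
        have := dvd_add (mod_dvd x P) hd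
        have e : x - x %ₘ P + (x %ₘ P - β i) = x - β i := by ring
        rwa [e] at this
      · rw [hA, ← card_Al]
        exact_mod_cast card_filter_le _ _) (Pr K n m)
  refine ⟨c, ?_, ?_⟩
  · intro P hP i
    have := hc P hP
    rw [hA, mem_filter] at this
    exact this.2 i
  refine (hle ((Pr K n m).filter (fun t => ∀ P ∈ PU K Y, ¬ P ∣ t.1 * t.2 - c P)) (filter_subset _ _)
    (fun t ht P hP h => (mem_filter.1 ht).2 P hP (by
      rw [← h]
      exact mod_dvd _ P))).trans ?_
  -- the weights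
  obtain ⟨b, hb⟩ : ∃ b : K[X] × K[X] → ℝ, ∀ t, b t =
      ∑ P ∈ (PU K Y).filter (fun P => ¬ (t.1 * t.2) %ₘ P ∈ A P), wt K P.natDegree := ⟨_, fun _ => rfl⟩
  have hb0 : ∀ t, 0 ≤ b t := by
    intro t
    rw [hb]
    exact sum_nonneg fun P _ => wt_nonneg _
  have hW : ∀ t, ∏ P ∈ (PU K Y).filter (fun P => (t.1 * t.2) %ₘ P ∈ A P),
      (1 - 1 / (Fintype.card K : ℝ) ^ P.natDegree) ≤ 2 / La K Y + 2 / La K Y * b t := by
    intro t
    have h1 : ∏ P ∈ (PU K Y).filter (fun P => (t.1 * t.2) %ₘ P ∈ A P),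
        (1 - 1 / (Fintype.card K : ℝ) ^ P.natDegree) ≤
        Real.exp (-(∑ P ∈ (PU K Y).filter (fun P => (t.1 * t.2) %ₘ P ∈ A P), wt K P.natDegree)) := by
      rw [← sum_neg_distrib, Real.exp_sum]
      refine prod_le_prod ?_ ?_
      · intro P _
        have h2 : (1 : ℝ) ≤ (Fintype.card K : ℝ) ^ P.natDegree := one_le_pow₀ (by linarith)
        rw [sub_nonneg, div_le_one (by linarith)]
        exact h2
      · intro P _
        have h2 := Real.add_one_le_exp (-(wt K P.natDegree))
        have h3 : wt K P.natDegree = 1 / (Fintype.card K : ℝ) ^ P.natDegree := by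
          unfold wt
          rw [one_div]
        rw [← h3]
        linarith
    have h2 : ∑ P ∈ (PU K Y).filter (fun P => (t.1 * t.2) %ₘ P ∈ A P), wt K P.natDegree =
        La K Y - b t := by
      rw [hb]
      unfold La
      rw [← sum_filter_add_sum_filter_not (PU K Y) (fun P => (t.1 * t.2) %ₘ P ∈ A P)]
      ring
    rw [h2] at h1
    by_cases hbt : b t ≤ La K Y / 2
    · have h3 : Real.exp (-(La K Y - b t)) ≤ Real.exp (-(La K Y / 2)) := by
        apply Real.exp_le_exp.2
        linarith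
      have h4 := exp_le (show 0 < La K Y / 2 by positivity)
      have h5 : 1 / (La K Y / 2) = 2 / La K Y := by field_simp
      rw [h5] at h4
      have h6 : 0 ≤ 2 / La K Y * b t := mul_nonneg (by positivity) (hb0 t)
      linarith
    · push Not at hbt
      have h3 : ∏ P ∈ (PU K Y).filter (fun P => (t.1 * t.2) %ₘ P ∈ A P),
        (1 - 1 / (Fintype.card K : ℝ) ^ P.natDegree) ≤ 1 := by
        refine prod_le_one ?_ ?_
        · intro P _
          have h2 : (1 : ℝ) ≤ (Fintype.card K : ℝ) ^ P.natDegree := one_le_pow₀ (by linarith)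
          rw [sub_nonneg, div_le_one (by linarith)]
          exact h2
        · intro P _
          have h2 : (0 : ℝ) ≤ 1 / (Fintype.card K : ℝ) ^ P.natDegree := by positivity
          linarith
      have h4 : 1 ≤ 2 / La K Y * b t := by
        rw [div_mul_eq_mul_div, le_div_iff₀ hL]
        linarith
      have h5 : 0 ≤ 2 / La K Y := by positivity
      linarith
  refine (sum_le_sum fun t _ => (le_of_eq (prod_congr ?_ fun _ _ => rfl)).trans (hW t)).trans ?_
  · ext P
    simp only [mem_filter]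
  rw [sum_add_distrib, sum_const, nsmul_eq_mul, ← mul_sum]
  -- the sum of the `b t`
  have hsb : ∑ t ∈ Pr K n m, b t ≤ 5 * k * T0 K n m := by
    have h1 : ∀ t ∈ Pr K n m, b t ≤
        ∑ P ∈ PU K Y, ∑ i : Fin k, (if P ∣ t.1 * t.2 - β i then wt K P.natDegree else 0) := by
      intro t _
      rw [hb, sum_filter]
      refine sum_le_sum fun P hP => ?_
      obtain ⟨hPm, hPi⟩ := hPU P hP
      have hnn : 0 ≤ ∑ i : Fin k, (if P ∣ t.1 * t.2 - β i then wt K P.natDegree else 0) := by
        refine sum_nonneg fun i _ => ?_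
        split_ifs
        · exact wt_nonneg _
        · exact le_rfl
      by_cases h : (t.1 * t.2) %ₘ P ∈ A P
      · rw [if_neg (not_not.2 h)]
        exact hnn
      · rw [if_pos h]
        rw [hA, mem_filter, not_and] at h
        have h2 := h ((mem_Al hPi.ne_zero).2 (degree_modByMonic_lt _ hPm))
        push Not at h2
        obtain ⟨i, hi⟩ := h2
        have h3 : P ∣ t.1 * t.2 - β i := by
          have := dvd_add (mod_dvd (t.1 * t.2) P) hi
          have e : t.1 * t.2 - (t.1 * t.2) %ₘ P + ((t.1 * t.2) %ₘ P - β i) = t.1 * t.2 - β i := by ring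
          rwa [e] at this
        have h4 := single_le_sum (f := fun i => if P ∣ t.1 * t.2 - β i then wt K P.natDegree else 0)
          (fun i _ => by
            show 0 ≤ (if P ∣ t.1 * t.2 - β i then wt K P.natDegree else 0)
            split_ifs
            · exact wt_nonneg _
            · exact le_rfl) (mem_univ i)
        simp only [if_pos h3] at h4
        exact h4
    refine (sum_le_sum h1).trans ?_
    rw [sum_comm]
    have h2 : ∀ P ∈ PU K Y, ∑ t ∈ Pr K n m, ∑ i : Fin k,
        (if P ∣ t.1 * t.2 - β i then wt K P.natDegree else 0) ≤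
        (wt K P.natDegree * wt K P.natDegree) * (5 * k * T0 K n m) := by
      intro P hP
      rw [sum_comm]
      have h3 : ∀ i ∈ (univ : Finset (Fin k)), ∑ t ∈ Pr K n m,
          (if P ∣ t.1 * t.2 - β i then wt K P.natDegree else 0) ≤
          (wt K P.natDegree * wt K P.natDegree) * (5 * T0 K n m) := by
        intro i _
        rw [← sum_filter, sum_const, nsmul_eq_mul]
        have := mul_le_mul_of_nonneg_right (hcl P hP (β i)) (wt_nonneg (k := K) P.natDegree)
        linarith
      refine (sum_le_sum h3).trans ?_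
      rw [sum_const, card_univ, Fintype.card_fin, nsmul_eq_mul]
      refine le_of_eq ?_
      ring
    refine (sum_le_sum h2).trans ?_
    rw [← sum_mul]
    have h3 := sum_wt_sq (K := K) Y
    have h4 : 0 ≤ 5 * k * T0 K n m := by positivity
    nlinarith
  have hc1 := card_Pr (K := K) hm
  have h5 : 0 ≤ 2 / La K Y := by positivity
  have h6 := mul_le_mul_of_nonneg_left hsb h5
  have h7 := mul_le_mul_of_nonneg_right hc1 h5
  have e : (2 + 10 * (k : ℝ)) / La K Y * T0 K n m =
      T0 K n m * (2 / La K Y) + 2 / La K Y * (5 * k * T0 K n m) := by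
    field_simp
    ring
  rw [e]
  linarith

end Pool.Agent.H77.WZ
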