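import Pool.Agent.H77.WZ.G3
import Pool.Agent.H985.US.Base

/-!
# Tools for the covering (helper77)
-/

set_option autoImplicit false
set_option linter.all false

namespace Pool.Agent.H77.WZ

open Polynomial Finset UniqueFactorizationMonoid
open scoped Classical
open Pool.Agent.H694.Typ
open Pool.Agent.H985.CG

variable {K : Type} [Field K] [Fintype K]

theorem nf_monic {v q : K[X]} (hq : q ∈ normalizedFactors v) : q.Monic ∧ Irreducible q := by
  have h1 := irreducible_of_normalized_factor q hq
  have h2 := normalize_normalized_factor q hq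
  refine ⟨?_, h1⟩
  rw [← h2]
  exact monic_normalize h1.ne_zero

theorem nf_prod {v : K[X]} (hv : v.Monic) : (normalizedFactors v).prod = v := by
  rw [prod_normalizedFactors_eq hv.ne_zero, hv.normalize_eq_self]

theorem nf_card {v : K[X]} (hv : v.Monic) : Multiset.card (normalizedFactors v) ≤ v.natDegree := by
  have h1 := natDegree_multiset_prod_of_monic (normalizedFactors v) (fun f hf => (nf_monic hf).1)
  rw [nf_prod hv] at h1
  rw [h1]
  have h2 := Multiset.card_nsmul_le_sum (s := (normalizedFactors v).map natDegree) (a := 1) (by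
    intro x hx
    obtain ⟨f, hf, rfl⟩ := Multiset.mem_map.1 hx
    exact (nf_monic hf).2.natDegree_pos)
  rwa [Multiset.card_map, smul_eq_mul, mul_one] at h2

/-- the number of the polynomials with all prime factors in a given set -/
theorem card_smooth (S : Finset K[X]) (n : ℕ) (T : Finset K[X])
    (hT : ∀ v ∈ T, v.Monic ∧ v.natDegree = n ∧ ∀ P : K[X], P.Monic → Irreducible P → P ∣ v → P ∈ S) :
    T.card ≤ (n + 1) ^ S.card := by
  have h1 : (univ : Finset (S → Fin (n + 1))).card = (n + 1) ^ S.card := by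
    rw [card_univ, Fintype.card_fun, Fintype.card_fin, Fintype.card_coe]
  rw [← h1]
  refine card_le_card_of_injOn (fun v => fun P : S =>
    (⟨min (Multiset.count (P : K[X]) (normalizedFactors v)) n, by omega⟩ : Fin (n + 1)))
    (fun _ _ => mem_univ _) ?_
  intro v hv v' hv' h
  obtain ⟨a1, a2, a3⟩ := hT v hv
  obtain ⟨b1, b2, b3⟩ := hT v' hv'
  rw [← nf_prod a1, ← nf_prod b1]
  congr 1
  refine Multiset.ext.2 fun P => ?_
  have c1 := (Multiset.count_le_card P (normalizedFactors v)).trans (nf_card a1)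
  have c2 := (Multiset.count_le_card P (normalizedFactors v')).trans (nf_card b1)
  by_cases hP : P ∈ S
  · have h2 := congrFun h ⟨P, hP⟩
    have h3 := Fin.mk.inj_iff.1 h2
    simp only at h3
    omega
  · rw [Multiset.count_eq_zero_of_notMem, Multiset.count_eq_zero_of_notMem]
    · intro hm
      exact hP (b3 P (nf_monic hm).1 (nf_monic hm).2 (dvd_of_mem_normalizedFactors hm))
    · intro hm
      exact hP (a3 P (nf_monic hm).1 (nf_monic hm).2 (dvd_of_mem_normalizedFactors hm))

/-- the number of prime divisors -/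
theorem card_divisors {f : K[X]} (hf : f ≠ 0) {r : ℕ} (hr : Multiset.card (factors f) ≤ r)
    (S : Finset K[X]) (hS : ∀ P ∈ S, P.Monic ∧ Irreducible P ∧ P ∣ f) : S.card ≤ r := by
  have h1 : S ⊆ (normalizedFactors f).toFinset := by
    intro P hP
    obtain ⟨h2, h3, h4⟩ := hS P hP
    rw [Multiset.mem_toFinset]
    obtain ⟨Q, hQ, hPQ⟩ := exists_mem_normalizedFactors_of_dvd hf h3 h4
    have := eq_of_monic_of_associated h2 (nf_monic hQ).1 hPQ
    rw [this]
    exact hQ
  refine (card_le_card h1).trans ((Multiset.toFinset_card_le _).trans ?_)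
  refine le_trans (le_of_eq ?_) hr
  unfold normalizedFactors
  rw [Multiset.card_map]

/-- the Chinese remainder theorem -/
theorem crt (I : Finset K[X]) (cl : K[X] → K[X]) (hI : ∀ P ∈ I, P.Monic ∧ Irreducible P) :
    ∃ ρ : K[X], ∀ P ∈ I, P ∣ ρ - cl P := by
  induction I using Finset.induction_on with
  | empty => exact ⟨0, by simp⟩
  | @insert P I hP ih =>
    obtain ⟨ρ, hρ⟩ := ih fun Q hQ => hI Q (mem_insert_of_mem hQ)
    have hcop : IsCoprime P (∏ Q ∈ I, Q) :=
      IsCoprime.prod_right fun Q hQ => coprime_of_ne (hI P (mem_insert_self P I)).1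
        (hI P (mem_insert_self P I)).2 (hI Q (mem_insert_of_mem hQ)).1
        (hI Q (mem_insert_of_mem hQ)).2 (fun h => hP (h ▸ hQ))
    obtain ⟨u, v, huv⟩ := hcop
    refine ⟨cl P * (v * ∏ Q ∈ I, Q) + ρ * (u * P), fun Q hQ => ?_⟩
    rcases mem_insert.1 hQ with rfl | hQ
    · exact ⟨u * (ρ - cl Q), by linear_combination (cl Q) * huv⟩
    · have h1 : Q ∣ ∏ Q ∈ I, Q := dvd_prod_of_mem _ hQ
      have e : cl P * (v * ∏ Q ∈ I, Q) + ρ * (u * P) - cl Q =
          (ρ - cl Q) + (∏ Q ∈ I, Q) * (v * (cl P - ρ)) := by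
        linear_combination ρ * huv
      rw [e]
      exact dvd_add (hρ Q hQ) (h1.mul_right _)

theorem sum_deg (x : ℕ) : ∑ P ∈ PU K x, P.natDegree ≤ 2 * Fintype.card K ^ x := by
  have hq : 2 ≤ Fintype.card K := Fintype.one_lt_card
  refine le_trans ?_ (geo hq x)
  unfold PU
  rw [sum_biUnion]
  · refine sum_le_sum fun j hj => ?_
    rw [mem_Icc] at hj
    rw [sum_congr rfl (fun P hP => (mem_Irn.1 hP).2.1), sum_const, smul_eq_mul, mul_comm]
    exact irn_one_le (by omega)
  · intro a _ b _ hab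
    rw [Function.onFun, Finset.disjoint_left]
    intro P hP hP'
    exact hab ((mem_Irn.1 hP).2.1.symm.trans (mem_Irn.1 hP').2.1)

/-- powers are smaller than exponentials -/
theorem pow_small (M m : ℕ) : ∃ n₀ : ℕ, ∀ n : ℕ, n₀ ≤ n →
    ((n : ℝ) + 1) ^ M ≤ (Fintype.card K : ℝ) ^ (n - m) := by
  have hq := q_ge (k := K)
  have h1 := tendsto_pow_const_div_const_pow_of_one_lt M (show (1 : ℝ) < Fintype.card K by linarith)
  have h2 := h1.eventually (gt_mem_nhds (show (0 : ℝ) < 1 / (Fintype.card K : ℝ) ^ (m + 1) by positivity))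
  obtain ⟨n₀, hn₀⟩ := Filter.eventually_atTop.1 h2
  refine ⟨n₀ + m, fun n hn => ?_⟩
  have h3 := hn₀ (n + 1) (by omega)
  rw [div_lt_div_iff₀ (by positivity) (by positivity), one_mul] at h3
  have h4 : (Fintype.card K : ℝ) ^ (n + 1) = (Fintype.card K : ℝ) ^ (n - m) *
      (Fintype.card K : ℝ) ^ (m + 1) := by
    rw [← pow_add]
    congr 1
    omega
  rw [h4] at h3
  push_cast at h3
  exact (lt_of_mul_lt_mul_right h3 (by positivity)).le

end Pool.Agent.H77.WZ
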