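import Pool.Agent.H77.WZ.G4

/-!
# The covering (helper77)
-/

set_option autoImplicit false
set_option linter.all false

namespace Pool.Agent.H77.WZ

open Polynomial Finset UniqueFactorizationMonoid
open scoped Classical
open Pool.Agent.H694.Typ
open Pool.Agent.H985.CG
open Pool.Agent.H985.Chow (mob)

variable {K : Type} [Field K] [Fintype K]

/-- the polynomials without residue class are few -/
theorem left_card [CharP K 2] (m k Y r n : ℕ) (hmn : m ≤ n) (hY : Y ≤ n - m) (β : Fin k → K[X])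
    (c : K[X] → K[X]) (B : ℝ)
    (hB : (((Pr K n m).filter (fun t => ∀ P ∈ PU K Y, ¬ P ∣ t.1 * t.2 - c P)).card : ℝ) ≤ B)
    (hβ : ∀ i, β i ≠ 0 ∧ Multiset.card (factors (β i)) ≤ r) (L : Finset K[X])
    (hL : ∀ v ∈ L, v ∈ Mn K n ∧ (∀ P ∈ PU K Y, ¬ P ∣ v - c P) ∧
      ∀ P ∈ PU K (n - m), P ∉ PU K Y → (∀ i, ¬ P ∣ β i) → ¬ P ∣ v) :
    (L.card : ℝ) ≤ B + ((n : ℝ) + 1) ^ ((PU K Y).card + k * r) := by
  obtain ⟨S, hS⟩ : ∃ S : Finset K[X], S = PU K Y ∪ (univ : Finset (Fin k)).biUnion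
      (fun i => (PU K (n - m)).filter (fun P => P ∣ β i)) := ⟨_, rfl⟩
  have hSc : S.card ≤ (PU K Y).card + k * r := by
    rw [hS]
    refine (card_union_le _ _).trans (Nat.add_le_add_left ?_ _)
    refine card_biUnion_le.trans ?_
    refine (sum_le_sum (g := fun _ => r) fun i _ => ?_).trans ?_
    · refine card_divisors (hβ i).1 (hβ i).2 _ fun P hP => ?_
      rw [mem_filter, mem_PU] at hP
      exact ⟨hP.1.1, hP.1.2.1, hP.2⟩
    · rw [sum_const, card_univ, Fintype.card_fin, smul_eq_mul]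
  obtain ⟨V, hV⟩ : ∃ V : Finset K[X], V = L.filter (fun v => ∀ P : K[X], P.Monic → Irreducible P →
      P ∣ v → P ∈ S) := ⟨_, rfl⟩
  have hVc : V.card ≤ (n + 1) ^ S.card := by
    refine card_smooth S n V fun v hv => ?_
    rw [hV, mem_filter] at hv
    have h1 := (hL v hv.1).1
    rw [mem_Mn] at h1
    exact ⟨h1.1, h1.2, hv.2⟩
  have hsub : L ⊆ V ∪ ((Pr K n m).filter (fun t => ∀ P ∈ PU K Y, ¬ P ∣ t.1 * t.2 - c P)).image
      (fun t => t.1 * t.2) := by
    intro v hv
    rw [mem_union]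
    by_cases h : ∀ P : K[X], P.Monic → Irreducible P → P ∣ v → P ∈ S
    · left
      rw [hV, mem_filter]
      exact ⟨hv, h⟩
    · right
      push Not at h
      obtain ⟨p, hpm, hpi, hpv, hpS⟩ := h
      obtain ⟨h1, h2, h3⟩ := hL v hv
      rw [mem_Mn] at h1
      have hp : n - m < p.natDegree := by
        by_contra hcon
        push Not at hcon
        apply hpS
        rw [hS, mem_union]
        by_cases hpY : p ∈ PU K Y
        · exact Or.inl hpY
        · right
          have hpx : p ∈ PU K (n - m) := mem_PU.2 ⟨hpm, hpi, hcon⟩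
          by_contra hno
          refine h3 p hpx hpY (fun i hi => hno ?_) hpv
          rw [mem_biUnion]
          exact ⟨i, mem_univ _, mem_filter.2 ⟨hpx, hi⟩⟩
      obtain ⟨s, hs⟩ := hpv
      have hsm : s.Monic := by
        refine hpm.of_mul_monic_left ?_
        rw [← hs]
        exact h1.1
      have hdeg : v.natDegree = p.natDegree + s.natDegree := by
        rw [hs]
        exact hpm.natDegree_mul hsm
      rw [mem_image]
      refine ⟨(s, p), ?_, ?_⟩
      · rw [mem_filter]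
        refine ⟨mem_Pr.2 ⟨s.natDegree, by omega, mem_Mn.2 ⟨hsm, rfl⟩, mem_Irn.2 ⟨hpm, ?_, hpi⟩⟩, ?_⟩
        · show p.natDegree = n - s.natDegree
          omega
        · intro P hP
          have := h2 P hP
          rw [hs] at this
          show ¬ P ∣ s * p - c P
          rwa [mul_comm s p]
      · show s * p = v
        rw [hs, mul_comm]
  have h1 := (card_le_card hsub).trans (card_union_le _ _)
  have h2 := h1.trans (Nat.add_le_add_left card_image_le _)
  have h3 : (L.card : ℝ) ≤ (V.card : ℝ) +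
      (((Pr K n m).filter (fun t => ∀ P ∈ PU K Y, ¬ P ∣ t.1 * t.2 - c P)).card : ℝ) := by
    exact_mod_cast h2
  have h4 : (V.card : ℝ) ≤ ((n : ℝ) + 1) ^ ((PU K Y).card + k * r) := by
    have h5 : (V.card : ℝ) ≤ ((n : ℝ) + 1) ^ S.card := by exact_mod_cast hVc
    refine h5.trans (pow_le_pow_right₀ ?_ hSc)
    have : (0 : ℝ) ≤ n := Nat.cast_nonneg n
    linarith
  linarith

/-- **The covering.** -/
theorem cover [CharP K 2] (k m : ℕ) (hm : 1 ≤ m) : ∃ h₀ : ℕ, ∀ h : ℕ, h₀ ≤ h →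
    ∀ α : Fin k → K[X], (∀ i, (α i).natDegree ≤ h) → (∀ i j, i ≠ j → α i ≠ α j) →
      (∀ P : K[X], P.Monic → Irreducible P → ∃ x : K[X], ∀ i, ¬ P ∣ x + α i) →
      ∃ D ρ : K[X], D.Monic ∧ D.natDegree ≤ 4 * Fintype.card K ^ (h + 1 - m) ∧
        (∀ P : K[X], Irreducible P → P ∣ D → ∀ i, ¬ P ∣ ρ + α i) ∧
        ∀ u : K[X], u.natDegree ≤ h → (∀ i, u ≠ α i) →
          ∃ P : K[X], Irreducible P ∧ P ∣ D ∧ P ∣ ρ + u ∧ P.natDegree ≤ h + 2 := by
  have hq := q_ge (k := K)
  have h2 : (2 : K[X]) = 0 := CharTwo.two_eq_zero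
  obtain ⟨r, A, c₀, hc₀, hA, hfew⟩ := Pool.Agent.H985.US.us_few Pool.Agent.H985.US.s_uss
    Pool.Agent.H985.US.s_usv K k
  obtain ⟨Y, hY⟩ := La_large (k := K) (2 * m * (2 + 10 * k) * (Fintype.card K : ℝ) ^ m)
  have hm1 : (1 : ℝ) ≤ m := by exact_mod_cast hm
  have hqm : (1 : ℝ) ≤ (Fintype.card K : ℝ) ^ m := one_le_pow₀ (by linarith)
  have hLa : 0 < La K Y := by
    refine lt_of_lt_of_le ?_ hY
    positivity
  obtain ⟨n₀, hsmall⟩ := small (K := K) m k Y hLa
  obtain ⟨n₁, hpow⟩ := pow_small (K := K) ((PU K Y).card + k * r + 1) m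
  refine ⟨n₀ + n₁ + A + 2 * m + Y + 5, fun h hh α hαd hαi hadm => ?_⟩
  obtain ⟨n, hn⟩ : ∃ n, n = h + 1 := ⟨_, rfl⟩
  rw [← hn]
  have hn0 : (0 : ℝ) < n := by exact_mod_cast (show 0 < n by omega)
  -- the shift `w`
  obtain ⟨w, hw⟩ : ∃ w ∈ Mn K n, ∀ i, w + α i ≠ 0 ∧ Multiset.card (factors (w + α i)) ≤ r := by
    have h1 := hfew 0 n (fun _ => 1) α (by omega) (fun i => ⟨one_ne_zero, by simp, by
      have := hαd i
      simp only [natDegree_one]
      omega⟩) (fun i j hij => by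
      rw [one_mul, one_mul]
      exact hαi j i hij.symm) (fun P hP hPi => by
      obtain ⟨x, hx⟩ := hadm P hP hPi
      exact ⟨x, fun i => by rw [one_mul]; exact hx i⟩) (fun _ => 1) (fun _ => Or.inl rfl)
    have h3 : (0 : ℝ) < c₀ * (Fintype.card K : ℝ) ^ n / (n : ℝ) ^ k := by positivity
    have h4 := lt_of_lt_of_le h3 h1
    rw [Nat.cast_pos, card_pos] at h4
    obtain ⟨w, hw⟩ := h4
    rw [mem_filter] at hw
    refine ⟨w, hw.1, fun i => ?_⟩
    have h5 := (hw.2 i).1
    rw [one_mul] at h5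
    exact ⟨h5.1.ne_zero, h5.2.1⟩
  obtain ⟨hwM, hwr⟩ := hw
  rw [mem_Mn] at hwM
  obtain ⟨β, hβ⟩ : ∃ β : Fin k → K[X], ∀ i, β i = w + α i := ⟨_, fun _ => rfl⟩
  obtain ⟨c, hc, hcB⟩ := hsmall n (by omega) (by omega) β (fun P hP => by
    obtain ⟨x, hx⟩ := hadm P (mem_PU.1 hP).1 (mem_PU.1 hP).2.1
    refine ⟨x + w, fun i hd => hx i ?_⟩
    rw [hβ] at hd
    have e : x + w - (w + α i) = x + α i := by linear_combination (-(α i)) * h2
    rwa [e] at hd)
  obtain ⟨Med, hMed⟩ : ∃ Med : Finset K[X], Med = (PU K (n - m)).filter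
      (fun P => P ∉ PU K Y ∧ ∀ i, ¬ P ∣ β i) := ⟨_, rfl⟩
  obtain ⟨L, hL⟩ : ∃ L : Finset K[X], L = (Mn K n).filter (fun v => (∀ P ∈ PU K Y, ¬ P ∣ v - c P) ∧
      (∀ P ∈ Med, ¬ P ∣ v) ∧ ∀ i, v ≠ β i) := ⟨_, rfl⟩
  have hLc := left_card m k Y r n (by omega) (by omega) β c _ hcB (fun i => by
    rw [hβ]
    exact hwr i) L (fun v hv => by
    rw [hL, mem_filter] at hv
    refine ⟨hv.1, hv.2.1, fun P hP hPY hPβ => hv.2.2.1 P ?_⟩
    rw [hMed, mem_filter]
    exact ⟨hP, hPY, hPβ⟩)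
  -- the size of `L`
  have hLn : ((n : ℝ) + 1) * (L.card : ℝ) ≤ 2 * (Fintype.card K : ℝ) ^ (n - m) := by
    have h5 := hpow n (by omega)
    rw [pow_succ] at h5
    have h6 : (m : ℝ) * 2 ≤ n + 1 := by exact_mod_cast (show m * 2 ≤ n + 1 by omega)
    have hd : (0 : ℝ) < (n : ℝ) + 1 - m := by linarith
    have h7 : ((n : ℝ) + 1) * ((2 + 10 * k) / La K Y * T0 K n m) ≤ (Fintype.card K : ℝ) ^ (n - m) := by
      have e1 : (Fintype.card K : ℝ) ^ n = (Fintype.card K : ℝ) ^ (n - m) * (Fintype.card K : ℝ) ^ m := by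
        rw [← pow_add]
        congr 1
        omega
      have e2 : ((n : ℝ) + 1) * ((2 + 10 * k) / La K Y * T0 K n m) =
          (((n : ℝ) + 1) / ((n : ℝ) + 1 - m)) * ((m * (2 + 10 * k) * (Fintype.card K : ℝ) ^ m) / La K Y) *
            (Fintype.card K : ℝ) ^ (n - m) := by
        unfold T0
        rw [e1]
        field_simp
      have h8 : ((n : ℝ) + 1) / ((n : ℝ) + 1 - m) ≤ 2 := by
        rw [div_le_iff₀ hd]
        linarith
      have h9 : (m * (2 + 10 * k) * (Fintype.card K : ℝ) ^ m) / La K Y ≤ 1 / 2 := by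
        rw [div_le_iff₀ hLa]
        linarith
      have h10 : (((n : ℝ) + 1) / ((n : ℝ) + 1 - m)) *
          ((m * (2 + 10 * k) * (Fintype.card K : ℝ) ^ m) / La K Y) ≤ 2 * (1 / 2) :=
        mul_le_mul h8 h9 (by positivity) (by norm_num)
      rw [e2]
      have h11 : (0 : ℝ) ≤ (Fintype.card K : ℝ) ^ (n - m) := by positivity
      nlinarith
    have h8 := mul_le_mul_of_nonneg_left hLc (show (0 : ℝ) ≤ (n : ℝ) + 1 by positivity)
    nlinarith
  have hLI : L.card ≤ (Irn K (n + 1)).card := by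
    have h5 : (Fintype.card K : ℝ) ^ (n + 1) ≤ ((n : ℝ) + 1) * ((Irn K (n + 1)).card : ℝ) +
        2 * (Fintype.card K : ℝ) ^ ((n + 1) / 2) := by
      exact_mod_cast irn_ge (k := K) (show 0 < n + 1 by omega)
    have h6 : 2 * (Fintype.card K : ℝ) ^ ((n + 1) / 2) ≤ (Fintype.card K : ℝ) ^ n := by
      calc 2 * (Fintype.card K : ℝ) ^ ((n + 1) / 2) ≤
          (Fintype.card K : ℝ) * (Fintype.card K : ℝ) ^ ((n + 1) / 2) :=
            mul_le_mul_of_nonneg_right hq (by positivity)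
        _ = (Fintype.card K : ℝ) ^ ((n + 1) / 2 + 1) := by rw [pow_succ]; ring
        _ ≤ _ := pow_le_pow_right₀ (by linarith) (by omega)
    have h7 : 2 * (Fintype.card K : ℝ) ^ (n - m) ≤ (Fintype.card K : ℝ) ^ n := by
      calc 2 * (Fintype.card K : ℝ) ^ (n - m) ≤
          (Fintype.card K : ℝ) * (Fintype.card K : ℝ) ^ (n - m) :=
            mul_le_mul_of_nonneg_right hq (by positivity)
        _ = (Fintype.card K : ℝ) ^ (n - m + 1) := by rw [pow_succ]; ring
        _ ≤ _ := pow_le_pow_right₀ (by linarith) (by omega)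
    have h8 : 2 * (Fintype.card K : ℝ) ^ n ≤ (Fintype.card K : ℝ) ^ (n + 1) := by
      rw [pow_succ]
      have : (0 : ℝ) ≤ (Fintype.card K : ℝ) ^ n := by positivity
      nlinarith
    have h9 : ((n : ℝ) + 1) * (L.card : ℝ) ≤ ((n : ℝ) + 1) * ((Irn K (n + 1)).card : ℝ) := by linarith
    exact_mod_cast le_of_mul_le_mul_left h9 (by positivity)
  -- the marks
  obtain ⟨μ, hμ, hμi⟩ : ∃ μ : K[X] → K[X], (∀ v ∈ L, μ v ∈ Irn K (n + 1)) ∧
      ∀ v ∈ L, ∀ v' ∈ L, μ v = μ v' → v = v' := by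
    have h5 : Fintype.card L ≤ Fintype.card (Irn K (n + 1)) := by
      rw [Fintype.card_coe, Fintype.card_coe]
      exact hLI
    obtain ⟨f⟩ := Function.Embedding.nonempty_of_card_le h5
    refine ⟨fun v => if hv : v ∈ L then (f ⟨v, hv⟩ : K[X]) else 0, fun v hv => ?_, fun v hv v' hv' he => ?_⟩
    · simp only [dif_pos hv]
      exact (f ⟨v, hv⟩).2
    · simp only [dif_pos hv, dif_pos hv'] at he
      have h6 := f.injective (Subtype.ext he)
      exact congrArg Subtype.val h6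
  obtain ⟨ν, hν⟩ : ∃ ν : K[X] → K[X], ∀ v ∈ L, ν (μ v) = v := by
    refine ⟨fun P => if hP : ∃ v ∈ L, μ v = P then hP.choose else 0, fun v hv => ?_⟩
    have hex : ∃ v' ∈ L, μ v' = μ v := ⟨v, hv, rfl⟩
    simp only [dif_pos hex]
    exact hμi _ hex.choose_spec.1 _ hv hex.choose_spec.2
  obtain ⟨cl, hcl⟩ : ∃ cl : K[X] → K[X], ∀ P, cl P = if P ∈ PU K Y then w + c P else
      if P ∈ Med then w else w + ν P := ⟨_, fun _ => rfl⟩
  obtain ⟨I, hI⟩ : ∃ I : Finset K[X], I = (PU K Y ∪ Med) ∪ L.image μ := ⟨_, rfl⟩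
  have hYx : PU K Y ⊆ PU K (n - m) := by
    intro P hP
    rw [mem_PU] at hP ⊢
    exact ⟨hP.1, hP.2.1, by omega⟩
  have hMx : Med ⊆ PU K (n - m) := by
    rw [hMed]
    exact filter_subset _ _
  have hIm : ∀ P ∈ I, P.Monic ∧ Irreducible P ∧ P.natDegree ≤ n + 1 := by
    intro P hP
    rw [hI, mem_union, mem_union, mem_image] at hP
    rcases hP with (hP | hP) | ⟨v, hv, rfl⟩
    · have := mem_PU.1 (hYx hP)
      exact ⟨this.1, this.2.1, by omega⟩
    · have := mem_PU.1 (hMx hP)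
      exact ⟨this.1, this.2.1, by omega⟩
    · have := mem_Irn.1 (hμ v hv)
      exact ⟨this.1, this.2.2, this.2.1.le⟩
  obtain ⟨ρ, hρ⟩ := crt I cl (fun P hP => ⟨(hIm P hP).1, (hIm P hP).2.1⟩)
  have hcY : ∀ P ∈ PU K Y, P ∣ ρ - (w + c P) := by
    intro P hP
    have := hρ P (by rw [hI, mem_union, mem_union]; exact Or.inl (Or.inl hP))
    rwa [hcl, if_pos hP] at this
  have hcM : ∀ P ∈ Med, P ∣ ρ - w := by
    intro P hP
    have := hρ P (by rw [hI, mem_union, mem_union]; exact Or.inl (Or.inr hP))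
    have hPY : P ∉ PU K Y := by
      rw [hMed, mem_filter] at hP
      exact hP.2.1
    rwa [hcl, if_neg hPY, if_pos hP] at this
  have hcL : ∀ v ∈ L, μ v ∣ ρ - (w + v) := by
    intro v hv
    have h5 := hρ (μ v) (by rw [hI, mem_union]; exact Or.inr (mem_image_of_mem _ hv))
    have h6 := (mem_Irn.1 (hμ v hv)).2.1
    have h7 : μ v ∉ PU K (n - m) := by
      intro h8
      have := (mem_PU.1 h8).2.2
      omega
    rwa [hcl, if_neg (fun h8 => h7 (hYx h8)), if_neg (fun h8 => h7 (hMx h8)), hν v hv] at h5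
  refine ⟨∏ P ∈ I, P, ρ, monic_prod_of_monic _ _ fun P hP => (hIm P hP).1, ?_, ?_, ?_⟩
  · -- the degree
    rw [natDegree_prod_of_monic _ _ fun P hP => (hIm P hP).1]
    have h5 : ∑ P ∈ I, P.natDegree ≤ ∑ P ∈ PU K (n - m), P.natDegree +
        ∑ P ∈ L.image μ, P.natDegree := by
      have h6 : I ⊆ PU K (n - m) ∪ L.image μ := by
        rw [hI]
        exact union_subset_union (union_subset hYx hMx) subset_rfl
      refine (sum_le_sum_of_subset h6).trans ?_
      rw [← sum_union_inter]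
      exact Nat.le_add_right _ _
    have h7 : ∑ P ∈ L.image μ, P.natDegree ≤ (n + 1) * L.card := by
      rw [sum_image (fun v hv v' hv' he => hμi v hv v' hv' he),
        sum_congr rfl (fun v hv => (mem_Irn.1 (hμ v hv)).2.1), sum_const, smul_eq_mul, mul_comm]
    have h8 : (n + 1) * L.card ≤ 2 * Fintype.card K ^ (n - m) := by exact_mod_cast hLn
    have h9 := sum_deg (K := K) (n - m)
    omega
  · -- no local obstruction
    intro P hPi hPD i hd
    obtain ⟨P', hP', hPP'⟩ := (hPi.prime.dvd_finset_prod_iff _).1 hPD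
    have hd' : P' ∣ ρ + α i :=
      ((hPi.associated_of_dvd (hIm P' hP').2.1 hPP').symm.dvd).trans hd
    rw [hI, mem_union, mem_union, mem_image] at hP'
    rcases hP' with (hP' | hP') | ⟨v, hv, rfl⟩
    · refine hc P' hP' i ?_
      have h5 := dvd_sub hd' (hcY P' hP')
      have e : ρ + α i - (ρ - (w + c P')) = c P' - β i + (w + α i) * 2 := by
        rw [hβ]
        ring
      rw [e, h2, mul_zero, add_zero] at h5
      exact h5
    · have h5 := dvd_sub hd' (hcM P' hP')
      have e : ρ + α i - (ρ - w) = β i := by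
        rw [hβ]
        ring
      rw [e] at h5
      rw [hMed, mem_filter] at hP'
      exact hP'.2.2 i h5
    · have h5 := dvd_sub hd' (hcL v hv)
      have e : ρ + α i - (ρ - (w + v)) = v - β i + (w + α i) * 2 := by
        rw [hβ]
        ring
      rw [e, h2, mul_zero, add_zero] at h5
      rw [hL, mem_filter, mem_Mn] at hv
      have h6 : v - β i ≠ 0 := sub_ne_zero.2 (hv.2.2.2 i)
      have h7 := natDegree_le_of_dvd h5 h6
      have h8 : (v - β i).natDegree ≤ n := by
        refine (natDegree_sub_le _ _).trans (max_le hv.1.2.le ?_)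
        rw [hβ]
        refine (natDegree_add_le _ _).trans (max_le hwM.2.le ?_)
        have := hαd i
        omega
      have h9 := (mem_Irn.1 (hμ v (by rw [hL, mem_filter, mem_Mn]; exact hv))).2.1
      omega
  · -- the other elements of the window
    intro u hu hua
    obtain ⟨v, hv⟩ : ∃ v, v = u + w := ⟨_, rfl⟩
    have hvM : v ∈ Mn K n := by
      rw [mem_Mn, hv]
      have h5 : u.natDegree < w.natDegree := by
        rw [hwM.2]
        omega
      have h6 : u.degree < w.degree := by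
        by_cases hu0 : u = 0
        · rw [hu0, degree_zero]
          exact bot_lt_iff_ne_bot.2 (fun h7 => hwM.1.ne_zero (degree_eq_bot.1 h7))
        · exact degree_lt_degree h5
      exact ⟨hwM.1.add_of_right h6, by rw [natDegree_add_eq_right_of_natDegree_lt h5]; exact hwM.2⟩
    by_cases hvL : v ∈ L
    · have h5 := mem_Irn.1 (hμ v hvL)
      refine ⟨μ v, h5.2.2, dvd_prod_of_mem _ (by rw [hI, mem_union]; exact Or.inr (mem_image_of_mem _ hvL)),
        ?_, by omega⟩
      have h6 := hcL v hvL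
      have e : ρ + u = (ρ - (w + v)) + (w + u) * 2 := by
        rw [hv]
        ring
      rw [e, h2, mul_zero, add_zero]
      exact h6
    · rw [hL, mem_filter] at hvL
      by_cases h5 : ∀ P ∈ PU K Y, ¬ P ∣ v - c P
      · by_cases h6 : ∀ P ∈ Med, ¬ P ∣ v
        · exfalso
          apply hvL
          refine ⟨hvM, h5, h6, fun i hi => hua i ?_⟩
          rw [hβ, hv, add_comm] at hi
          exact add_left_cancel hi
        · push Not at h6
          obtain ⟨P, hP, hPv⟩ := h6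
          have h7 := mem_PU.1 (hMx hP)
          refine ⟨P, h7.2.1, dvd_prod_of_mem _ (by rw [hI, mem_union, mem_union]; exact Or.inl (Or.inr hP)),
            ?_, by omega⟩
          have e : ρ + u = (ρ - w) + v := by
            rw [hv]
            ring
          rw [e]
          exact dvd_add (hcM P hP) hPv
      · push Not at h5
        obtain ⟨P, hP, hPv⟩ := h5
        have h7 := mem_PU.1 (hYx hP)
        refine ⟨P, h7.2.1, dvd_prod_of_mem _ (by rw [hI, mem_union, mem_union]; exact Or.inl (Or.inl hP)),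
          ?_, by omega⟩
        have e : ρ + u = (ρ - (w + c P)) + (v - c P) + c P * 2 := by
          rw [hv]
          ring
        rw [e, h2, mul_zero, add_zero]
        exact dvd_add (hcY P hP) hPv

end Pool.Agent.H77.WZ
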