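import Pool.Agent.H77.WZ.G5

/-!
# Exact patterns in windows which are longer than any multiple of the degree (helper77)
-/

set_option autoImplicit false
set_option linter.all false

namespace Pool.Agent.H77.WZ

open Polynomial Finset UniqueFactorizationMonoid
open scoped Classical
open Pool.Agent.H694.Typ
open Pool.Agent.H985.Chow (mob)

variable {K : Type} [Field K] [Fintype K]

theorem lin_adm [CharP K 2] {D ρ : K[X]} {k : ℕ} {α : Fin k → K[X]}
    (hD : ∀ P : K[X], Irreducible P → P ∣ D → ∀ i, ¬ P ∣ ρ + α i)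
    (hadm : ∀ P : K[X], P.Monic → Irreducible P → ∃ x : K[X], ∀ i, ¬ P ∣ x + α i) :
    Pool.Agent.H985.US.Adm (fun _ : Fin k => D) (fun i => ρ + α i) := by
  intro P hP hPi
  by_cases h : P ∣ D
  · exact ⟨0, fun i => by
      rw [mul_zero, zero_add]
      exact hD P hPi h i⟩
  · obtain ⟨x, hx⟩ := hadm P hP hPi
    obtain ⟨u, v, huv⟩ := (hPi.coprime_iff_not_dvd).2 h
    refine ⟨v * (x - ρ), fun i hd => hx i ?_⟩
    have e : x + α i = (D * (v * (x - ρ)) + (ρ + α i)) + P * (u * (x - ρ)) := by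
      linear_combination (ρ - x) * huv
    rw [e]
    exact dvd_add hd (dvd_mul_right _ _)

/-- the count with `D` -/
theorem exact_D [CharP K 2] (k : ℕ) : ∃ (r A : ℕ) (c : ℝ), 0 < c ∧ 1 ≤ A ∧
    ∀ (m : ℕ), 1 ≤ m → ∃ h₀ : ℕ, ∀ h n : ℕ, h₀ ≤ h → 2 * A * (4 * Fintype.card K ^ (h + 1 - m) + h + 1) ≤ n →
      ∀ α : Fin k → K[X], (∀ i, (α i).natDegree ≤ h) → (∀ i j, i ≠ j → α i ≠ α j) →
      (∀ P : K[X], P.Monic → Irreducible P → ∃ x : K[X], ∀ i, ¬ P ∣ x + α i) →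
      ∀ σ : Fin k → ℤ, (∀ i, σ i = 1 ∨ σ i = -1) →
      c * (Fintype.card K : ℝ) ^ (n - 4 * Fintype.card K ^ (h + 1 - m)) / (n : ℝ) ^ k ≤
        (((Mn K n).filter (fun f => (∀ i, (Squarefree (f + α i) ∧
          Multiset.card (factors (f + α i)) ≤ r ∧
            ∀ P : K[X], Irreducible P → P ∣ f + α i → n ≤ (r + 1) * P.natDegree) ∧
              mob (f + α i) = σ i) ∧
            ∀ u : K[X], u.natDegree ≤ h → (∀ i, u ≠ α i) →
              ∃ P : K[X], Irreducible P ∧ P ∣ f + u ∧ P.natDegree ≤ h + 2)).card : ℝ) := by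
  have hq := q_ge (k := K)
  obtain ⟨r, A, c, hc, hA, hfew⟩ := Pool.Agent.H985.US.us_few Pool.Agent.H985.US.s_uss
    Pool.Agent.H985.US.s_usv K k
  refine ⟨2 * r + 1, A, c, hc, hA, fun m hm => ?_⟩
  obtain ⟨h₀, hcov⟩ := cover (K := K) k m hm
  refine ⟨h₀, fun h n hh hn α hαd hαi hadm σ hσ => ?_⟩
  obtain ⟨D, ρ₀, hDm, hDd, hDρ, hDu⟩ := hcov h hh α hαd hαi hadm
  obtain ⟨ρ, hρ⟩ : ∃ ρ, ρ = ρ₀ %ₘ D := ⟨_, rfl⟩
  have hρd : ρ.degree < D.degree := by
    rw [hρ]
    exact degree_modByMonic_lt ρ₀ hDm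
  have hρD : D ∣ ρ - ρ₀ := by
    rw [hρ]
    have := mod_dvd ρ₀ D
    rw [← dvd_neg]
    have e : -(ρ₀ %ₘ D - ρ₀) = ρ₀ - ρ₀ %ₘ D := by ring
    rwa [e]
  obtain ⟨Q, hQ⟩ : ∃ Q, Q = 4 * Fintype.card K ^ (h + 1 - m) := ⟨_, rfl⟩
  rw [← hQ] at hDd hn ⊢
  obtain ⟨d, hd⟩ : ∃ d, d = D.natDegree := ⟨_, rfl⟩
  rw [← hd] at hDd
  have hA1 : 1 * (Q + h + 1) ≤ A * (Q + h + 1) := Nat.mul_le_mul_right _ hA
  have hn' : 2 * A * (Q + h + 1) = 2 * (A * (Q + h + 1)) := by ring
  have hAd : A * (d + 1) ≤ A * (Q + h + 1) := Nat.mul_le_mul_left _ (by omega)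
  obtain ⟨n', hn1⟩ : ∃ n', n' = n - d := ⟨_, rfl⟩
  have hdn : n' + d = n := by omega
  have h2n : n ≤ 2 * n' := by omega
  -- the sifted values
  have h1 := hfew d n' (fun _ => D) (fun i => ρ + α i) (by omega) (fun i => ⟨hDm.ne_zero, hd ▸ le_rfl, by
      have h3 := hαd i
      have h4 : ρ.natDegree ≤ d := by
        rw [hd]
        exact natDegree_le_natDegree hρd.le
      have h5 := (natDegree_add_le ρ (α i)).trans (max_le_max h4 h3)
      show (ρ + α i).natDegree < n' + D.natDegree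
      rw [← hd]
      have h6 : max d h < n' + d := by
        apply max_lt <;> omega
      omega⟩) (fun i j hij he => by
      have h3 := mul_left_cancel₀ hDm.ne_zero he
      exact hαi j i hij.symm (add_left_cancel h3)) (lin_adm (fun P hPi hP i hdv => by
      have h3 := (hP.trans hρD)
      have e : ρ₀ + α i = (ρ + α i) - (ρ - ρ₀) := by ring
      refine hDρ P hPi hP i ?_
      rw [e]
      exact dvd_sub hdv h3) hadm) σ hσ
  have h3 : c * (Fintype.card K : ℝ) ^ (n - Q) / (n : ℝ) ^ k ≤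
      c * (Fintype.card K : ℝ) ^ n' / (n' : ℝ) ^ k := by
    have hn0 : (0 : ℝ) < n' := by exact_mod_cast (show 0 < n' by omega)
    have h4 : (n' : ℝ) ≤ n := by exact_mod_cast (show n' ≤ n by omega)
    have h5 : (Fintype.card K : ℝ) ^ (n - Q) ≤ (Fintype.card K : ℝ) ^ n' :=
      pow_le_pow_right₀ (by linarith) (by omega)
    exact div_le_div₀ (by positivity) (mul_le_mul_of_nonneg_left h5 hc.le) (by positivity)
      (pow_le_pow_left₀ hn0.le h4 k)
  refine (h3.trans h1).trans (Nat.cast_le.2 ?_)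
  -- the map `g ↦ D g + ρ`
  refine card_le_card_of_injOn (fun g => D * g + ρ) ?_ ?_
  · intro g hg
    rw [mem_coe, mem_filter, mem_Mn] at hg
    obtain ⟨⟨hgm, hgd⟩, hg2⟩ := hg
    have hDg : (D * g).Monic := hDm.mul hgm
    have hDgd : (D * g).natDegree = n := by
      rw [hDm.natDegree_mul hgm, hgd, ← hd]
      omega
    have hlt : ρ.degree < (D * g).degree := by
      refine lt_of_lt_of_le hρd ?_
      rw [degree_eq_natDegree hDm.ne_zero, degree_eq_natDegree hDg.ne_zero, hDgd, ← hd]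
      exact_mod_cast (show d ≤ n by omega)
    have hmm : (D * g + ρ).Monic := hDg.add_of_left hlt
    have hmd : (D * g + ρ).natDegree = n := by
      rw [natDegree_eq_of_degree_eq (degree_add_eq_left_of_degree_lt hlt)]
      exact hDgd
    rw [mem_coe, mem_filter, mem_Mn]
    refine ⟨⟨hmm, hmd⟩, fun i => ?_, fun u hu hua => ?_⟩
    · have e : D * g + ρ + α i = D * g + (ρ + α i) := by ring
      obtain ⟨⟨a1, a2, a3⟩, a4⟩ := hg2 i
      show (Squarefree (D * g + ρ + α i) ∧ _ ∧ _) ∧ _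
      rw [e]
      refine ⟨⟨a1, by omega, fun P hP hdv => ?_⟩, a4⟩
      have := a3 P hP hdv
      have e2 : (2 * r + 1 + 1) * P.natDegree = 2 * ((r + 1) * P.natDegree) := by ring
      rw [e2]
      omega
    · obtain ⟨P, hP1, hP2, hP3, hP4⟩ := hDu u hu hua
      refine ⟨P, hP1, ?_, hP4⟩
      have e : D * g + ρ + u = D * g + (ρ - ρ₀) + (ρ₀ + u) := by ring
      show P ∣ D * g + ρ + u
      rw [e]
      exact dvd_add (dvd_add (hP2.mul_right _) (hP2.trans hρD)) hP3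
  · intro g _ g' _ he
    have h4 : D * g + ρ = D * g' + ρ := he
    exact mul_left_cancel₀ hDm.ne_zero (add_right_cancel h4)

end Pool.Agent.H77.WZ
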