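import Pool.Agent.H77.WZ.G6

/-!
# Exact patterns in long windows: the parameters (helper77)
-/

set_option autoImplicit false
set_option linter.all false

namespace Pool.Agent.H77.WZ

open Polynomial Finset UniqueFactorizationMonoid
open scoped Classical
open Pool.Agent.H694.Typ
open Pool.Agent.H985.Chow (mob)

variable {K : Type} [Field K] [Fintype K]

theorem sq_le_pow (h : ℕ) : (h + 1) ^ 2 ≤ 4 * 2 ^ h := by
  rcases Nat.lt_or_ge h 2 with h2 | h2
  · interval_cases h <;> norm_num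
  · induction h, h2 using Nat.le_induction with
    | base => norm_num
    | succ h h2 ih =>
      rw [pow_succ 2 h]
      nlinarith

theorem main [CharP K 2] (k : ℕ) : ∃ r : ℕ, ∀ C ε : ℝ, 0 < ε → ∃ (C₁ : ℝ) (N : ℕ),
    ∀ n h : ℕ, N ≤ n → (Fintype.card K : ℝ) ^ h ≤ C * n →
      ∀ α : Fin k → K[X], (∀ i, (α i).natDegree ≤ h) → (∀ i j, i ≠ j → α i ≠ α j) →
      (∀ P : K[X], P.Monic → Irreducible P → ∃ x : K[X], ∀ i, ¬ P ∣ x + α i) →
      ∀ σ : Fin k → ℤ, (∀ i, σ i = 1 ∨ σ i = -1) →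
      (Fintype.card K : ℝ) ^ ((1 - ε) * (n : ℝ)) ≤
        (((Mn K n).filter (fun f => (∀ i, (Squarefree (f + α i) ∧
          Multiset.card (factors (f + α i)) ≤ r ∧
            ∀ P : K[X], Irreducible P → P ∣ f + α i → n ≤ (r + 1) * P.natDegree) ∧
              mob (f + α i) = σ i) ∧
            ∀ u : K[X], u.natDegree ≤ h → (∀ i, u ≠ α i) →
              ∃ P : K[X], Irreducible P ∧ P ∣ f + u ∧
                (Fintype.card K : ℝ) ^ P.natDegree ≤ C₁ * n)).card : ℝ) := by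
  have hq := q_ge (k := K)
  have hq0 : (0 : ℝ) < (Fintype.card K : ℝ) := by linarith
  obtain ⟨r, A, c, hc, hA, hex⟩ := exact_D (K := K) k
  refine ⟨r, fun C ε hε => ?_⟩
  obtain ⟨q, hqe⟩ : ∃ q : ℝ, q = (Fintype.card K : ℝ) := ⟨_, rfl⟩
  have hAR : (1 : ℝ) ≤ A := by exact_mod_cast hA
  obtain ⟨Cp, hCp⟩ : ∃ Cp : ℝ, Cp = |C| + 1 := ⟨_, rfl⟩
  have hCp1 : 1 ≤ Cp := by
    rw [hCp]
    have := abs_nonneg C
    linarith
  have hCC : C ≤ Cp := by
    rw [hCp]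
    have := le_abs_self C
    linarith
  obtain ⟨δ, hδ⟩ : ∃ δ : ℝ, δ = min (ε / 2) (1 / (8 * A)) := ⟨_, rfl⟩
  have hδ0 : 0 < δ := by
    rw [hδ]
    exact lt_min (by positivity) (by positivity)
  have hδ1 : δ ≤ ε / 2 := by rw [hδ]; exact min_le_left _ _
  have hδ2 : δ ≤ 1 / (8 * A) := by rw [hδ]; exact min_le_right _ _
  obtain ⟨m₀, hm₀⟩ := pow_unbounded_of_one_lt (4 * q * Cp / δ) (show (1 : ℝ) < 2 by norm_num)
  obtain ⟨m, hm⟩ : ∃ m, m = m₀ + 1 := ⟨_, rfl⟩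
  have hqm : 4 * q * Cp / δ ≤ q ^ m := by
    refine hm₀.le.trans ?_
    calc (2 : ℝ) ^ m₀ ≤ q ^ m₀ := pow_le_pow_left₀ (by norm_num) (by rw [hqe]; exact hq) _
      _ ≤ q ^ m := pow_le_pow_right₀ (by rw [hqe]; linarith) (by omega)
  obtain ⟨h₀, hH⟩ := hex m (by omega)
  -- the size of `n`
  obtain ⟨N₁, hN₁⟩ := exists_nat_ge (q ^ (h₀ + m))
  obtain ⟨N₂, hN₂⟩ := exists_nat_ge (256 * (A : ℝ) ^ 2 * Cp)
  have hb : (1 : ℝ) < q ^ (ε / 2) := by
    rw [hqe]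
    exact Real.one_lt_rpow (by linarith) (by positivity)
  have hlim := tendsto_pow_const_div_const_pow_of_one_lt k hb
  obtain ⟨N₃, hN₃⟩ := Filter.eventually_atTop.1 (hlim.eventually (gt_mem_nhds hc))
  refine ⟨q ^ 2 * Cp, N₁ + N₂ + N₃ + 1, fun n h hn hh α hαd hαi hadm σ hσ => ?_⟩
  have hn0 : (0 : ℝ) < n := by exact_mod_cast (show 0 < n by omega)
  obtain ⟨h', hh'⟩ : ∃ h', h' = max h (h₀ + m) := ⟨_, rfl⟩
  have hh1 : h ≤ h' := by rw [hh']; exact le_max_left _ _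
  have hh2 : h₀ + m ≤ h' := by rw [hh']; exact le_max_right _ _
  have hqh : q ^ h' ≤ Cp * n := by
    rw [hh']
    rcases le_total h (h₀ + m) with h1 | h1
    · rw [max_eq_right h1]
      have h2 : (N₁ : ℝ) ≤ n := by exact_mod_cast (show N₁ ≤ n by omega)
      nlinarith
    · rw [max_eq_left h1, hqe]
      refine hh.trans (mul_le_mul_of_nonneg_right hCC hn0.le)
  obtain ⟨Q, hQ⟩ : ∃ Q, Q = 4 * Fintype.card K ^ (h' + 1 - m) := ⟨_, rfl⟩
  have hQR : (Q : ℝ) * q ^ m = 4 * q * q ^ h' := by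
    rw [hQ, hqe]
    push_cast
    rw [mul_assoc, ← pow_add, mul_assoc, ← pow_succ']
    congr 2
    omega
  have hQn : (Q : ℝ) ≤ δ * n := by
    have h1 : (Q : ℝ) * (4 * q * Cp / δ) ≤ 4 * q * (Cp * n) := by
      calc (Q : ℝ) * (4 * q * Cp / δ) ≤ (Q : ℝ) * q ^ m :=
            mul_le_mul_of_nonneg_left hqm (Nat.cast_nonneg _)
        _ = 4 * q * q ^ h' := hQR
        _ ≤ _ := mul_le_mul_of_nonneg_left hqh (by rw [hqe]; positivity)
    have h2 : (0 : ℝ) < 4 * q * Cp := by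
      rw [hqe]
      positivity
    have h3 : (Q : ℝ) * (4 * q * Cp) ≤ δ * n * (4 * q * Cp) := by
      have h4 := mul_le_mul_of_nonneg_left h1 hδ0.le
      have e1 : δ * ((Q : ℝ) * (4 * q * Cp / δ)) = (Q : ℝ) * (4 * q * Cp) := by field_simp
      rw [e1] at h4
      linarith
    exact le_of_mul_le_mul_right h3 h2
  have hhn : (h' : ℝ) + 1 ≤ n / (8 * A) := by
    have h1 : ((h' : ℝ) + 1) ^ 2 ≤ 4 * q ^ h' := by
      have h2 : ((h' : ℝ) + 1) ^ 2 ≤ 4 * 2 ^ h' := by exact_mod_cast sq_le_pow h'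
      have h3 : (2 : ℝ) ^ h' ≤ q ^ h' := pow_le_pow_left₀ (by norm_num) (by rw [hqe]; exact hq) _
      linarith
    have h2 : ((h' : ℝ) + 1) ^ 2 ≤ (n / (8 * A)) ^ 2 := by
      have h3 : 4 * (Cp * n) ≤ (n / (8 * A)) ^ 2 := by
        have h4 : (N₂ : ℝ) ≤ n := by exact_mod_cast (show N₂ ≤ n by omega)
        rw [div_pow, le_div_iff₀ (by positivity)]
        have h5 : 256 * (A : ℝ) ^ 2 * Cp * (n : ℝ) ≤ (n : ℝ) * n :=
          mul_le_mul_of_nonneg_right (hN₂.trans h4) hn0.le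
        calc 4 * (Cp * n) * (8 * (A : ℝ)) ^ 2 = 256 * (A : ℝ) ^ 2 * Cp * (n : ℝ) := by ring
          _ ≤ (n : ℝ) * n := h5
          _ = (n : ℝ) ^ 2 := by ring
      linarith
    exact (abs_le_of_sq_le_sq' h2 (by positivity)).2
  have hcond : 2 * A * (Q + h' + 1) ≤ n := by
    have h1 : (2 : ℝ) * A * (Q + h' + 1) ≤ n := by
      have h2 : (Q : ℝ) ≤ n / (8 * A) := by
        refine hQn.trans ?_
        calc δ * n ≤ 1 / (8 * A) * n := mul_le_mul_of_nonneg_right hδ2 hn0.le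
          _ = n / (8 * A) := by ring
      calc (2 : ℝ) * A * (Q + h' + 1) ≤ 2 * A * (n / (8 * A) + n / (8 * A)) :=
            mul_le_mul_of_nonneg_left (by linarith) (by positivity)
        _ = n / 2 := by
            field_simp
            ring
        _ ≤ n := by linarith
    exact_mod_cast h1
  rw [hQ] at hcond
  have h1 := hH h' n (by omega) hcond α (fun i => (hαd i).trans hh1) hαi hadm σ hσ
  refine le_trans ?_ (h1.trans (Nat.cast_le.2 (card_le_card ?_)))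
  · rw [← hQ]
    have hN3 := (hN₃ n (by omega)).le
    rw [div_le_iff₀ (by positivity)] at hN3
    rw [le_div_iff₀ (by positivity), ← hqe]
    have h2 : q ^ ((1 - ε / 2) * (n : ℝ)) ≤ q ^ (n - Q) := by
      rw [← Real.rpow_natCast]
      refine Real.rpow_le_rpow_of_exponent_le (by rw [hqe]; linarith) ?_
      have h3 : Q ≤ n := by
        rw [hQ]
        nlinarith
      rw [Nat.cast_sub h3]
      nlinarith
    have h3 : q ^ ((1 - ε) * (n : ℝ)) * (q ^ (ε / 2)) ^ n = q ^ ((1 - ε / 2) * (n : ℝ)) := by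
      rw [← Real.rpow_natCast (q ^ (ε / 2)) n, ← Real.rpow_mul (by rw [hqe]; positivity),
        ← Real.rpow_add (by rw [hqe]; positivity)]
      congr 1
      ring
    have h4 : (0 : ℝ) ≤ q ^ ((1 - ε) * (n : ℝ)) := Real.rpow_nonneg (by rw [hqe]; positivity) _
    calc q ^ ((1 - ε) * (n : ℝ)) * (n : ℝ) ^ k ≤
        q ^ ((1 - ε) * (n : ℝ)) * (c * (q ^ (ε / 2)) ^ n) := mul_le_mul_of_nonneg_left hN3 h4
      _ = c * q ^ ((1 - ε / 2) * (n : ℝ)) := by rw [← h3]; ring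
      _ ≤ c * q ^ (n - Q) := mul_le_mul_of_nonneg_left h2 hc.le
  · intro f hf
    rw [mem_filter] at hf ⊢
    refine ⟨hf.1, hf.2.1, fun u hu hua => ?_⟩
    obtain ⟨P, hP, hPd, hPn⟩ := hf.2.2 u (hu.trans hh1) hua
    refine ⟨P, hP, hPd, ?_⟩
    rw [← hqe]
    calc q ^ P.natDegree ≤ q ^ (h' + 2) := pow_le_pow_right₀ (by rw [hqe]; linarith) hPn
      _ = q ^ 2 * q ^ h' := by ring
      _ ≤ q ^ 2 * (Cp * n) := mul_le_mul_of_nonneg_left hqh (by positivity)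
      _ = q ^ 2 * Cp * n := by ring

end Pool.Agent.H77.WZ
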