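import Pool.Agent.H77.WZ.G5

/-!
# Exact patterns in residue classes: the small primes (helper77)
-/

set_option autoImplicit false
set_option linter.all false

namespace Pool.Agent.H77.WZ

open Polynomial Finset UniqueFactorizationMonoid
open scoped Classical
open Pool.Agent.H694.Typ
open Pool.Agent.H985.CG
open Pool.Agent.H985.Chow (mob)

variable {K : Type} [Field K] [Fintype K]

/-- **The residues modulo the small primes.** -/
theorem smallS [CharP K 2] (m k Y : ℕ) (S : Finset K[X]) (hSY : S ⊆ PU K Y) (LS : ℝ)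
    (hLS : LS = ∑ P ∈ S, wt K P.natDegree) (hL : 0 < LS) : ∃ n₀ : ℕ, ∀ n : ℕ, n₀ ≤ n → m ≤ n →
    ∀ β : Fin k → K[X], (∀ P ∈ S, ∃ x : K[X], ∀ i, ¬ P ∣ x - β i) →
      ∃ c : K[X] → K[X], (∀ P ∈ S, ∀ i, ¬ P ∣ c P - β i) ∧
        (((Pr K n m).filter (fun t => ∀ P ∈ S, ¬ P ∣ t.1 * t.2 - c P)).card : ℝ) ≤
          (2 + 10 * k) / LS * T0 K n m := by
  have hq := q_ge (k := K)
  have hPU : ∀ P ∈ S, P.Monic ∧ Irreducible P := fun P hP =>
    ⟨(mem_PU.1 (hSY hP)).1, (mem_PU.1 (hSY hP)).2.1⟩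
  have hex : ∀ P : K[X], ∃ n₀ : ℕ, P ∈ S → ∀ n : ℕ, n₀ ≤ n → m ≤ n → ∀ β : K[X],
      (((Pr K n m).filter (fun t => P ∣ t.1 * t.2 - β)).card : ℝ) ≤
        5 * wt K P.natDegree * T0 K n m := by
    intro P
    by_cases hP : P ∈ S
    · obtain ⟨n₀, h⟩ := cls_Pr (K := K) m (hPU P hP).1 (hPU P hP).2
      exact ⟨n₀, fun _ => h⟩
    · exact ⟨0, fun h => absurd h hP⟩
  choose N₀ hN₀ using hex
  refine ⟨(S).sup N₀, fun n hn hm β hβ => ?_⟩
  have hcl : ∀ P ∈ S, ∀ β : K[X], (((Pr K n m).filter (fun t => P ∣ t.1 * t.2 - β)).card : ℝ) ≤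
        5 * wt K P.natDegree * T0 K n m := fun P hP =>
    hN₀ P hP n ((Finset.le_sup (f := N₀) hP).trans hn) hm
  have hT0 : 0 ≤ T0 K n m := by
    unfold T0
    have : (m : ℝ) ≤ n := by exact_mod_cast hm
    have h1 : (0 : ℝ) ≤ (n : ℝ) + 1 - m := by linarith
    positivity
  obtain ⟨A, hA⟩ : ∃ A : K[X] → Finset K[X], ∀ P, A P = (Al K P).filter (fun r => ∀ i, ¬ P ∣ r - β i) :=
    ⟨_, fun _ => rfl⟩
  obtain ⟨c, hc, hle⟩ := greedy' (0 : K[X]) (S) (fun P => (Fintype.card K : ℝ) ^ P.natDegree) A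
    (fun P (t : K[X] × K[X]) => (t.1 * t.2) %ₘ P)
    (fun P hP => one_le_pow₀ (by linarith)) (by
      intro P hP
      obtain ⟨hPm, hPi⟩ := hPU P hP
      constructor
      · obtain ⟨x, hx⟩ := hβ P hP
        refine ⟨x %ₘ P, ?_⟩
        rw [hA, mem_filter, mem_Al hPi.ne_zero]
        refine ⟨degree_modByMonic_lt x hPm, fun i hd => hx i ?_⟩
        have := dvd_add (mod_dvd x P) hd
        have e : x - x %ₘ P + (x %ₘ P - β i) = x - β i := by ring
        rwa [e] at this
      · rw [hA, ← card_Al]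
        exact_mod_cast card_filter_le _ _) (Pr K n m)
  refine ⟨c, ?_, ?_⟩
  · intro P hP i
    have := hc P hP
    rw [hA, mem_filter] at this
    exact this.2 i
  refine (hle ((Pr K n m).filter (fun t => ∀ P ∈ S, ¬ P ∣ t.1 * t.2 - c P)) (filter_subset _ _)
    (fun t ht P hP h => (mem_filter.1 ht).2 P hP (by
      rw [← h]
      exact mod_dvd _ P))).trans ?_
  -- the weights
  obtain ⟨b, hb⟩ : ∃ b : K[X] × K[X] → ℝ, ∀ t, b t =
      ∑ P ∈ (S).filter (fun P => ¬ (t.1 * t.2) %ₘ P ∈ A P), wt K P.natDegree := ⟨_, fun _ => rfl⟩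
  have hb0 : ∀ t, 0 ≤ b t := by
    intro t
    rw [hb]
    exact sum_nonneg fun P _ => wt_nonneg _
  have hW : ∀ t, ∏ P ∈ (S).filter (fun P => (t.1 * t.2) %ₘ P ∈ A P),
      (1 - 1 / (Fintype.card K : ℝ) ^ P.natDegree) ≤ 2 / LS + 2 / LS * b t := by
    intro t
    have h1 : ∏ P ∈ (S).filter (fun P => (t.1 * t.2) %ₘ P ∈ A P),
        (1 - 1 / (Fintype.card K : ℝ) ^ P.natDegree) ≤
        Real.exp (-(∑ P ∈ (S).filter (fun P => (t.1 * t.2) %ₘ P ∈ A P), wt K P.natDegree)) := by
      rw [← sum_neg_distrib, Real.exp_sum]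
      refine prod_le_prod ?_ ?_
      · intro P _
        have h2 : (1 : ℝ) ≤ (Fintype.card K : ℝ) ^ P.natDegree := one_le_pow₀ (by linarith)
        rw [sub_nonneg, div_le_one (by linarith)]
        exact h2
      · intro P _
        have h2 := Real.add_one_le_exp (-(wt K P.natDegree))
        have h3 : wt K P.natDegree = 1 / (Fintype.card K : ℝ) ^ P.natDegree := by
          unfold wt
          rw [one_div]
        rw [← h3]
        linarith
    have h2 : ∑ P ∈ (S).filter (fun P => (t.1 * t.2) %ₘ P ∈ A P), wt K P.natDegree =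
        LS - b t := by
      rw [hb]
      rw [hLS, ← sum_filter_add_sum_filter_not (S) (fun P => (t.1 * t.2) %ₘ P ∈ A P)]
      ring
    rw [h2] at h1
    by_cases hbt : b t ≤ LS / 2
    · have h3 : Real.exp (-(LS - b t)) ≤ Real.exp (-(LS / 2)) := by
        apply Real.exp_le_exp.2
        linarith
      have h4 := exp_le (show 0 < LS / 2 by positivity)
      have h5 : 1 / (LS / 2) = 2 / LS := by field_simp
      rw [h5] at h4
      have h6 : 0 ≤ 2 / LS * b t := mul_nonneg (by positivity) (hb0 t)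
      linarith
    · push Not at hbt
      have h3 : ∏ P ∈ (S).filter (fun P => (t.1 * t.2) %ₘ P ∈ A P),
        (1 - 1 / (Fintype.card K : ℝ) ^ P.natDegree) ≤ 1 := by
        refine prod_le_one ?_ ?_
        · intro P _
          have h2 : (1 : ℝ) ≤ (Fintype.card K : ℝ) ^ P.natDegree := one_le_pow₀ (by linarith)
          rw [sub_nonneg, div_le_one (by linarith)]
          exact h2
        · intro P _
          have h2 : (0 : ℝ) ≤ 1 / (Fintype.card K : ℝ) ^ P.natDegree := by positivity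
          linarith
      have h4 : 1 ≤ 2 / LS * b t := by
        rw [div_mul_eq_mul_div, le_div_iff₀ hL]
        linarith
      have h5 : 0 ≤ 2 / LS := by positivity
      linarith
  refine (sum_le_sum fun t _ => (le_of_eq (prod_congr ?_ fun _ _ => rfl)).trans (hW t)).trans ?_
  · ext P
    simp only [mem_filter]
  rw [sum_add_distrib, sum_const, nsmul_eq_mul, ← mul_sum]
  -- the sum of the `b t`
  have hsb : ∑ t ∈ Pr K n m, b t ≤ 5 * k * T0 K n m := by
    have h1 : ∀ t ∈ Pr K n m, b t ≤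
        ∑ P ∈ S, ∑ i : Fin k, (if P ∣ t.1 * t.2 - β i then wt K P.natDegree else 0) := by
      intro t _
      rw [hb, sum_filter]
      refine sum_le_sum fun P hP => ?_
      obtain ⟨hPm, hPi⟩ := hPU P hP
      have hnn : 0 ≤ ∑ i : Fin k, (if P ∣ t.1 * t.2 - β i then wt K P.natDegree else 0) := by
        refine sum_nonneg fun i _ => ?_
        split_ifs
        · exact wt_nonneg _
        · exact le_rfl
      by_cases h : (t.1 * t.2) %ₘ P ∈ A P
      · rw [if_neg (not_not.2 h)]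
        exact hnn
      · rw [if_pos h]
        rw [hA, mem_filter, not_and] at h
        have h2 := h ((mem_Al hPi.ne_zero).2 (degree_modByMonic_lt _ hPm))
        push Not at h2
        obtain ⟨i, hi⟩ := h2
        have h3 : P ∣ t.1 * t.2 - β i := by
          have := dvd_add (mod_dvd (t.1 * t.2) P) hi
          have e : t.1 * t.2 - (t.1 * t.2) %ₘ P + ((t.1 * t.2) %ₘ P - β i) = t.1 * t.2 - β i := by ring
          rwa [e] at this
        have h4 := single_le_sum (f := fun i => if P ∣ t.1 * t.2 - β i then wt K P.natDegree else 0)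
          (fun i _ => by
            show 0 ≤ (if P ∣ t.1 * t.2 - β i then wt K P.natDegree else 0)
            split_ifs
            · exact wt_nonneg _
            · exact le_rfl) (mem_univ i)
        simp only [if_pos h3] at h4
        exact h4
    refine (sum_le_sum h1).trans ?_
    rw [sum_comm]
    have h2 : ∀ P ∈ S, ∑ t ∈ Pr K n m, ∑ i : Fin k,
        (if P ∣ t.1 * t.2 - β i then wt K P.natDegree else 0) ≤
        (wt K P.natDegree * wt K P.natDegree) * (5 * k * T0 K n m) := by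
      intro P hP
      rw [sum_comm]
      have h3 : ∀ i ∈ (univ : Finset (Fin k)), ∑ t ∈ Pr K n m,
          (if P ∣ t.1 * t.2 - β i then wt K P.natDegree else 0) ≤
          (wt K P.natDegree * wt K P.natDegree) * (5 * T0 K n m) := by
        intro i _
        rw [← sum_filter, sum_const, nsmul_eq_mul]
        have := mul_le_mul_of_nonneg_right (hcl P hP (β i)) (wt_nonneg (k := K) P.natDegree)
        linarith
      refine (sum_le_sum h3).trans ?_
      rw [sum_const, card_univ, Fintype.card_fin, nsmul_eq_mul]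
      refine le_of_eq ?_
      ring
    refine (sum_le_sum h2).trans ?_
    rw [← sum_mul]
    have h3 : ∑ P ∈ S, wt K P.natDegree * wt K P.natDegree ≤ 1 :=
      (sum_le_sum_of_subset_of_nonneg hSY fun P _ _ => mul_nonneg (wt_nonneg _) (wt_nonneg _)).trans
        (sum_wt_sq (K := K) Y)
    have h4 : 0 ≤ 5 * k * T0 K n m := by positivity
    nlinarith
  have hc1 := card_Pr (K := K) hm
  have h5 : 0 ≤ 2 / LS := by positivity
  have h6 := mul_le_mul_of_nonneg_left hsb h5
  have h7 := mul_le_mul_of_nonneg_right hc1 h5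
  have e : (2 + 10 * (k : ℝ)) / LS * T0 K n m =
      T0 K n m * (2 / LS) + 2 / LS * (5 * k * T0 K n m) := by
    field_simp
    ring
  rw [e]
  linarith

/-- the polynomials without residue class are few -/
theorem left_cardS [CharP K 2] (m k Y r n : ℕ) (Z : Finset K[X]) (hmn : m ≤ n) (hY : Y ≤ n - m) (β : Fin k → K[X])
    (c : K[X] → K[X]) (B : ℝ)
    (hB : (((Pr K n m).filter (fun t => ∀ P ∈ Z, ¬ P ∣ t.1 * t.2 - c P)).card : ℝ) ≤ B)
    (hβ : ∀ i, β i ≠ 0 ∧ Multiset.card (factors (β i)) ≤ r) (L : Finset K[X])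
    (hL : ∀ v ∈ L, v ∈ Mn K n ∧ (∀ P ∈ Z, ¬ P ∣ v - c P) ∧
      ∀ P ∈ PU K (n - m), P ∉ PU K Y → (∀ i, ¬ P ∣ β i) → ¬ P ∣ v) :
    (L.card : ℝ) ≤ B + ((n : ℝ) + 1) ^ ((PU K Y).card + k * r) := by
  obtain ⟨S, hS⟩ : ∃ S : Finset K[X], S = PU K Y ∪ (univ : Finset (Fin k)).biUnion
      (fun i => (PU K (n - m)).filter (fun P => P ∣ β i)) := ⟨_, rfl⟩
  have hSc : S.card ≤ (PU K Y).card + k * r := by
    rw [hS]
    refine (card_union_le _ _).trans (Nat.add_le_add_left ?_ _)
    refine card_biUnion_le.trans ?_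
    refine (sum_le_sum (g := fun _ => r) fun i _ => ?_).trans ?_
    · refine card_divisors (hβ i).1 (hβ i).2 _ fun P hP => ?_
      rw [mem_filter, mem_PU] at hP
      exact ⟨hP.1.1, hP.1.2.1, hP.2⟩
    · rw [sum_const, card_univ, Fintype.card_fin, smul_eq_mul]
  obtain ⟨V, hV⟩ : ∃ V : Finset K[X], V = L.filter (fun v => ∀ P : K[X], P.Monic → Irreducible P →
      P ∣ v → P ∈ S) := ⟨_, rfl⟩
  have hVc : V.card ≤ (n + 1) ^ S.card := by
    refine card_smooth S n V fun v hv => ?_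
    rw [hV, mem_filter] at hv
    have h1 := (hL v hv.1).1
    rw [mem_Mn] at h1
    exact ⟨h1.1, h1.2, hv.2⟩
  have hsub : L ⊆ V ∪ ((Pr K n m).filter (fun t => ∀ P ∈ Z, ¬ P ∣ t.1 * t.2 - c P)).image
      (fun t => t.1 * t.2) := by
    intro v hv
    rw [mem_union]
    by_cases h : ∀ P : K[X], P.Monic → Irreducible P → P ∣ v → P ∈ S
    · left
      rw [hV, mem_filter]
      exact ⟨hv, h⟩
    · right
      push Not at h
      obtain ⟨p, hpm, hpi, hpv, hpS⟩ := h
      obtain ⟨h1, h2, h3⟩ := hL v hv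
      rw [mem_Mn] at h1
      have hp : n - m < p.natDegree := by
        by_contra hcon
        push Not at hcon
        apply hpS
        rw [hS, mem_union]
        by_cases hpY : p ∈ PU K Y
        · exact Or.inl hpY
        · right
          have hpx : p ∈ PU K (n - m) := mem_PU.2 ⟨hpm, hpi, hcon⟩
          by_contra hno
          refine h3 p hpx hpY (fun i hi => hno ?_) hpv
          rw [mem_biUnion]
          exact ⟨i, mem_univ _, mem_filter.2 ⟨hpx, hi⟩⟩
      obtain ⟨s, hs⟩ := hpv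
      have hsm : s.Monic := by
        refine hpm.of_mul_monic_left ?_
        rw [← hs]
        exact h1.1
      have hdeg : v.natDegree = p.natDegree + s.natDegree := by
        rw [hs]
        exact hpm.natDegree_mul hsm
      rw [mem_image]
      refine ⟨(s, p), ?_, ?_⟩
      · rw [mem_filter]
        refine ⟨mem_Pr.2 ⟨s.natDegree, by omega, mem_Mn.2 ⟨hsm, rfl⟩, mem_Irn.2 ⟨hpm, ?_, hpi⟩⟩, ?_⟩
        · show p.natDegree = n - s.natDegree
          omega
        · intro P hP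
          have := h2 P hP
          rw [hs] at this
          show ¬ P ∣ s * p - c P
          rwa [mul_comm s p]
      · show s * p = v
        rw [hs, mul_comm]
  have h1 := (card_le_card hsub).trans (card_union_le _ _)
  have h2 := h1.trans (Nat.add_le_add_left card_image_le _)
  have h3 : (L.card : ℝ) ≤ (V.card : ℝ) +
      (((Pr K n m).filter (fun t => ∀ P ∈ Z, ¬ P ∣ t.1 * t.2 - c P)).card : ℝ) := by
    exact_mod_cast h2
  have h4 : (V.card : ℝ) ≤ ((n : ℝ) + 1) ^ ((PU K Y).card + k * r) := by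
    have h5 : (V.card : ℝ) ≤ ((n : ℝ) + 1) ^ S.card := by exact_mod_cast hVc
    refine h5.trans (pow_le_pow_right₀ ?_ hSc)
    have : (0 : ℝ) ≤ n := Nat.cast_nonneg n
    linarith
  linarith

/-- **The covering.** -/
theorem coverM [CharP K 2] (k m : ℕ) (hm : 1 ≤ m) (M : K[X]) (hM0 : M ≠ 0) : ∃ h₀ : ℕ, ∀ h : ℕ, h₀ ≤ h →
    ∀ α : Fin k → K[X], (∀ i, (α i).natDegree ≤ h) → (∀ i j, i ≠ j → α i ≠ α j) →
      (∀ P : K[X], P.Monic → Irreducible P → ∃ x : K[X], ∀ i, ¬ P ∣ x + α i) →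
      ∃ D ρ : K[X], D.Monic ∧ IsCoprime D M ∧ D.natDegree ≤ 4 * Fintype.card K ^ (h + 1 - m) ∧
        (∀ P : K[X], Irreducible P → P ∣ D → ∀ i, ¬ P ∣ ρ + α i) ∧
        ∀ u : K[X], u.natDegree ≤ h → (∀ i, u ≠ α i) →
          ∃ P : K[X], Irreducible P ∧ P ∣ D ∧ P ∣ ρ + u ∧ P.natDegree ≤ h + 2 := by
  have hq := q_ge (k := K)
  have h2 : (2 : K[X]) = 0 := CharTwo.two_eq_zero
  obtain ⟨r, A, c₀, hc₀, hA, hfew⟩ := Pool.Agent.H985.US.us_few Pool.Agent.H985.US.s_uss
    Pool.Agent.H985.US.s_usv K k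
  obtain ⟨Y₀, hY₀⟩ := La_large (k := K) (2 * m * (2 + 10 * k) * (Fintype.card K : ℝ) ^ m +
    La K M.natDegree)
  obtain ⟨Y, hYd⟩ : ∃ Y, Y = Y₀ + M.natDegree := ⟨_, rfl⟩
  obtain ⟨Z, hZ⟩ : ∃ Z : Finset K[X], Z = (PU K Y).filter (fun P => ¬ P ∣ M) := ⟨_, rfl⟩
  have hZY : Z ⊆ PU K Y := by
    rw [hZ]
    exact filter_subset _ _
  obtain ⟨LS, hLS⟩ : ∃ LS : ℝ, LS = ∑ P ∈ Z, wt K P.natDegree := ⟨_, rfl⟩
  have hY : 2 * m * (2 + 10 * k) * (Fintype.card K : ℝ) ^ m ≤ LS := by
    have h5 : La K Y ≤ LS + La K M.natDegree := by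
      have h6 : La K Y = LS + ∑ P ∈ (PU K Y).filter (fun P => ¬ ¬ P ∣ M), wt K P.natDegree := by
        rw [hLS, hZ]
        unfold La
        rw [sum_filter_add_sum_filter_not]
      have h7 : ∑ P ∈ (PU K Y).filter (fun P => ¬ ¬ P ∣ M), wt K P.natDegree ≤ La K M.natDegree := by
        unfold La
        refine sum_le_sum_of_subset_of_nonneg ?_ fun _ _ _ => wt_nonneg _
        intro P hP
        rw [mem_filter, mem_PU, not_not] at hP
        exact mem_PU.2 ⟨hP.1.1, hP.1.2.1, natDegree_le_of_dvd hP.2 hM0⟩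
      linarith
    have h8 : La K Y₀ ≤ La K Y := La_mono (by omega)
    linarith
  have hm1 : (1 : ℝ) ≤ m := by exact_mod_cast hm
  have hqm : (1 : ℝ) ≤ (Fintype.card K : ℝ) ^ m := one_le_pow₀ (by linarith)
  have hLa : 0 < LS := by
    refine lt_of_lt_of_le ?_ hY
    positivity
  obtain ⟨n₀, hsmall⟩ := smallS (K := K) m k Y Z hZY LS hLS hLa
  obtain ⟨n₁, hpow⟩ := pow_small (K := K) ((PU K Y).card + k * r + 1) m
  refine ⟨n₀ + n₁ + A + 2 * m + Y + 5, fun h hh α hαd hαi hadm => ?_⟩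
  obtain ⟨n, hn⟩ : ∃ n, n = h + 1 := ⟨_, rfl⟩
  rw [← hn]
  have hn0 : (0 : ℝ) < n := by exact_mod_cast (show 0 < n by omega)
  -- the shift `w`
  obtain ⟨w, hw⟩ : ∃ w ∈ Mn K n, ∀ i, w + α i ≠ 0 ∧ Multiset.card (factors (w + α i)) ≤ r := by
    have h1 := hfew 0 n (fun _ => 1) α (by omega) (fun i => ⟨one_ne_zero, by simp, by
      have := hαd i
      simp only [natDegree_one]
      omega⟩) (fun i j hij => by
      rw [one_mul, one_mul]
      exact hαi j i hij.symm) (fun P hP hPi => by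
      obtain ⟨x, hx⟩ := hadm P hP hPi
      exact ⟨x, fun i => by rw [one_mul]; exact hx i⟩) (fun _ => 1) (fun _ => Or.inl rfl)
    have h3 : (0 : ℝ) < c₀ * (Fintype.card K : ℝ) ^ n / (n : ℝ) ^ k := by positivity
    have h4 := lt_of_lt_of_le h3 h1
    rw [Nat.cast_pos, card_pos] at h4
    obtain ⟨w, hw⟩ := h4
    rw [mem_filter] at hw
    refine ⟨w, hw.1, fun i => ?_⟩
    have h5 := (hw.2 i).1
    rw [one_mul] at h5
    exact ⟨h5.1.ne_zero, h5.2.1⟩
  obtain ⟨hwM, hwr⟩ := hw
  rw [mem_Mn] at hwM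
  obtain ⟨β, hβ⟩ : ∃ β : Fin k → K[X], ∀ i, β i = w + α i := ⟨_, fun _ => rfl⟩
  obtain ⟨c, hc, hcB⟩ := hsmall n (by omega) (by omega) β (fun P hP => by
    obtain ⟨x, hx⟩ := hadm P (mem_PU.1 (hZY hP)).1 (mem_PU.1 (hZY hP)).2.1
    refine ⟨x + w, fun i hd => hx i ?_⟩
    rw [hβ] at hd
    have e : x + w - (w + α i) = x + α i := by linear_combination (-(α i)) * h2
    rwa [e] at hd)
  obtain ⟨Med, hMed⟩ : ∃ Med : Finset K[X], Med = (PU K (n - m)).filter
      (fun P => P ∉ PU K Y ∧ ∀ i, ¬ P ∣ β i) := ⟨_, rfl⟩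
  obtain ⟨L, hL⟩ : ∃ L : Finset K[X], L = (Mn K n).filter (fun v => (∀ P ∈ Z, ¬ P ∣ v - c P) ∧
      (∀ P ∈ Med, ¬ P ∣ v) ∧ ∀ i, v ≠ β i) := ⟨_, rfl⟩
  have hLc := left_cardS m k Y r n Z (by omega) (by omega) β c _ hcB (fun i => by
    rw [hβ]
    exact hwr i) L (fun v hv => by
    rw [hL, mem_filter] at hv
    refine ⟨hv.1, hv.2.1, fun P hP hPY hPβ => hv.2.2.1 P ?_⟩
    rw [hMed, mem_filter]
    exact ⟨hP, hPY, hPβ⟩)
  -- the size of `L`
  have hLn : ((n : ℝ) + 1) * (L.card : ℝ) ≤ 2 * (Fintype.card K : ℝ) ^ (n - m) := by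
    have h5 := hpow n (by omega)
    rw [pow_succ] at h5
    have h6 : (m : ℝ) * 2 ≤ n + 1 := by exact_mod_cast (show m * 2 ≤ n + 1 by omega)
    have hd : (0 : ℝ) < (n : ℝ) + 1 - m := by linarith
    have h7 : ((n : ℝ) + 1) * ((2 + 10 * k) / LS * T0 K n m) ≤ (Fintype.card K : ℝ) ^ (n - m) := by
      have e1 : (Fintype.card K : ℝ) ^ n = (Fintype.card K : ℝ) ^ (n - m) * (Fintype.card K : ℝ) ^ m := by
        rw [← pow_add]
        congr 1
        omega
      have e2 : ((n : ℝ) + 1) * ((2 + 10 * k) / LS * T0 K n m) =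
          (((n : ℝ) + 1) / ((n : ℝ) + 1 - m)) * ((m * (2 + 10 * k) * (Fintype.card K : ℝ) ^ m) / LS) *
            (Fintype.card K : ℝ) ^ (n - m) := by
        unfold T0
        rw [e1]
        field_simp
      have h8 : ((n : ℝ) + 1) / ((n : ℝ) + 1 - m) ≤ 2 := by
        rw [div_le_iff₀ hd]
        linarith
      have h9 : (m * (2 + 10 * k) * (Fintype.card K : ℝ) ^ m) / LS ≤ 1 / 2 := by
        rw [div_le_iff₀ hLa]
        linarith
      have h10 : (((n : ℝ) + 1) / ((n : ℝ) + 1 - m)) *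
          ((m * (2 + 10 * k) * (Fintype.card K : ℝ) ^ m) / LS) ≤ 2 * (1 / 2) :=
        mul_le_mul h8 h9 (by positivity) (by norm_num)
      rw [e2]
      have h11 : (0 : ℝ) ≤ (Fintype.card K : ℝ) ^ (n - m) := by positivity
      nlinarith
    have h8 := mul_le_mul_of_nonneg_left hLc (show (0 : ℝ) ≤ (n : ℝ) + 1 by positivity)
    nlinarith
  have hLI : L.card ≤ (Irn K (n + 1)).card := by
    have h5 : (Fintype.card K : ℝ) ^ (n + 1) ≤ ((n : ℝ) + 1) * ((Irn K (n + 1)).card : ℝ) +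
        2 * (Fintype.card K : ℝ) ^ ((n + 1) / 2) := by
      exact_mod_cast irn_ge (k := K) (show 0 < n + 1 by omega)
    have h6 : 2 * (Fintype.card K : ℝ) ^ ((n + 1) / 2) ≤ (Fintype.card K : ℝ) ^ n := by
      calc 2 * (Fintype.card K : ℝ) ^ ((n + 1) / 2) ≤
          (Fintype.card K : ℝ) * (Fintype.card K : ℝ) ^ ((n + 1) / 2) :=
            mul_le_mul_of_nonneg_right hq (by positivity)
        _ = (Fintype.card K : ℝ) ^ ((n + 1) / 2 + 1) := by rw [pow_succ]; ring
        _ ≤ _ := pow_le_pow_right₀ (by linarith) (by omega)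
    have h7 : 2 * (Fintype.card K : ℝ) ^ (n - m) ≤ (Fintype.card K : ℝ) ^ n := by
      calc 2 * (Fintype.card K : ℝ) ^ (n - m) ≤
          (Fintype.card K : ℝ) * (Fintype.card K : ℝ) ^ (n - m) :=
            mul_le_mul_of_nonneg_right hq (by positivity)
        _ = (Fintype.card K : ℝ) ^ (n - m + 1) := by rw [pow_succ]; ring
        _ ≤ _ := pow_le_pow_right₀ (by linarith) (by omega)
    have h8 : 2 * (Fintype.card K : ℝ) ^ n ≤ (Fintype.card K : ℝ) ^ (n + 1) := by
      rw [pow_succ]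
      have : (0 : ℝ) ≤ (Fintype.card K : ℝ) ^ n := by positivity
      nlinarith
    have h9 : ((n : ℝ) + 1) * (L.card : ℝ) ≤ ((n : ℝ) + 1) * ((Irn K (n + 1)).card : ℝ) := by linarith
    exact_mod_cast le_of_mul_le_mul_left h9 (by positivity)
  -- the marks
  obtain ⟨μ, hμ, hμi⟩ : ∃ μ : K[X] → K[X], (∀ v ∈ L, μ v ∈ Irn K (n + 1)) ∧
      ∀ v ∈ L, ∀ v' ∈ L, μ v = μ v' → v = v' := by
    have h5 : Fintype.card L ≤ Fintype.card (Irn K (n + 1)) := by
      rw [Fintype.card_coe, Fintype.card_coe]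
      exact hLI
    obtain ⟨f⟩ := Function.Embedding.nonempty_of_card_le h5
    refine ⟨fun v => if hv : v ∈ L then (f ⟨v, hv⟩ : K[X]) else 0, fun v hv => ?_, fun v hv v' hv' he => ?_⟩
    · simp only [dif_pos hv]
      exact (f ⟨v, hv⟩).2
    · simp only [dif_pos hv, dif_pos hv'] at he
      have h6 := f.injective (Subtype.ext he)
      exact congrArg Subtype.val h6
  obtain ⟨ν, hν⟩ : ∃ ν : K[X] → K[X], ∀ v ∈ L, ν (μ v) = v := by
    refine ⟨fun P => if hP : ∃ v ∈ L, μ v = P then hP.choose else 0, fun v hv => ?_⟩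
    have hex : ∃ v' ∈ L, μ v' = μ v := ⟨v, hv, rfl⟩
    simp only [dif_pos hex]
    exact hμi _ hex.choose_spec.1 _ hv hex.choose_spec.2
  obtain ⟨cl, hcl⟩ : ∃ cl : K[X] → K[X], ∀ P, cl P = if P ∈ Z then w + c P else
      if P ∈ Med then w else w + ν P := ⟨_, fun _ => rfl⟩
  obtain ⟨I, hI⟩ : ∃ I : Finset K[X], I = (Z ∪ Med) ∪ L.image μ := ⟨_, rfl⟩
  have hYx : Z ⊆ PU K (n - m) := by
    intro P hP
    have hP := mem_PU.1 (hZY hP)
    rw [mem_PU]
    exact ⟨hP.1, hP.2.1, by omega⟩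
  have hMx : Med ⊆ PU K (n - m) := by
    rw [hMed]
    exact filter_subset _ _
  have hIm : ∀ P ∈ I, P.Monic ∧ Irreducible P ∧ P.natDegree ≤ n + 1 := by
    intro P hP
    rw [hI, mem_union, mem_union, mem_image] at hP
    rcases hP with (hP | hP) | ⟨v, hv, rfl⟩
    · have := mem_PU.1 (hYx hP)
      exact ⟨this.1, this.2.1, by omega⟩
    · have := mem_PU.1 (hMx hP)
      exact ⟨this.1, this.2.1, by omega⟩
    · have := mem_Irn.1 (hμ v hv)
      exact ⟨this.1, this.2.2, this.2.1.le⟩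
  obtain ⟨ρ, hρ⟩ := crt I cl (fun P hP => ⟨(hIm P hP).1, (hIm P hP).2.1⟩)
  have hcY : ∀ P ∈ Z, P ∣ ρ - (w + c P) := by
    intro P hP
    have := hρ P (by rw [hI, mem_union, mem_union]; exact Or.inl (Or.inl hP))
    rwa [hcl, if_pos hP] at this
  have hcM : ∀ P ∈ Med, P ∣ ρ - w := by
    intro P hP
    have := hρ P (by rw [hI, mem_union, mem_union]; exact Or.inl (Or.inr hP))
    have hPY : P ∉ Z := by
      rw [hMed, mem_filter] at hP
      exact fun h => hP.2.1 (hZY h)
    rwa [hcl, if_neg hPY, if_pos hP] at this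
  have hcL : ∀ v ∈ L, μ v ∣ ρ - (w + v) := by
    intro v hv
    have h5 := hρ (μ v) (by rw [hI, mem_union]; exact Or.inr (mem_image_of_mem _ hv))
    have h6 := (mem_Irn.1 (hμ v hv)).2.1
    have h7 : μ v ∉ PU K (n - m) := by
      intro h8
      have := (mem_PU.1 h8).2.2
      omega
    rwa [hcl, if_neg (fun h8 => h7 (hYx h8)), if_neg (fun h8 => h7 (hMx h8)), hν v hv] at h5
  refine ⟨∏ P ∈ I, P, ρ, monic_prod_of_monic _ _ fun P hP => (hIm P hP).1, ?_, ?_, ?_, ?_⟩
  · -- coprime to the modulus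
    refine IsCoprime.prod_left fun P hP => ((hIm P hP).2.1.coprime_iff_not_dvd).2 fun hd => ?_
    have h5 := natDegree_le_of_dvd hd hM0
    rw [hI, mem_union, mem_union, mem_image] at hP
    rcases hP with (hP | hP) | ⟨v, hv, rfl⟩
    · rw [hZ, mem_filter] at hP
      exact hP.2 hd
    · rw [hMed, mem_filter, mem_PU] at hP
      exact hP.2.1 (mem_PU.2 ⟨hP.1.1, hP.1.2.1, by omega⟩)
    · have := (mem_Irn.1 (hμ v hv)).2.1
      omega
  · -- the degree
    rw [natDegree_prod_of_monic _ _ fun P hP => (hIm P hP).1]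
    have h5 : ∑ P ∈ I, P.natDegree ≤ ∑ P ∈ PU K (n - m), P.natDegree +
        ∑ P ∈ L.image μ, P.natDegree := by
      have h6 : I ⊆ PU K (n - m) ∪ L.image μ := by
        rw [hI]
        exact union_subset_union (union_subset hYx hMx) subset_rfl
      refine (sum_le_sum_of_subset h6).trans ?_
      rw [← sum_union_inter]
      exact Nat.le_add_right _ _
    have h7 : ∑ P ∈ L.image μ, P.natDegree ≤ (n + 1) * L.card := by
      rw [sum_image (fun v hv v' hv' he => hμi v hv v' hv' he),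
        sum_congr rfl (fun v hv => (mem_Irn.1 (hμ v hv)).2.1), sum_const, smul_eq_mul, mul_comm]
    have h8 : (n + 1) * L.card ≤ 2 * Fintype.card K ^ (n - m) := by exact_mod_cast hLn
    have h9 := sum_deg (K := K) (n - m)
    omega
  · -- no local obstruction
    intro P hPi hPD i hd
    obtain ⟨P', hP', hPP'⟩ := (hPi.prime.dvd_finset_prod_iff _).1 hPD
    have hd' : P' ∣ ρ + α i :=
      ((hPi.associated_of_dvd (hIm P' hP').2.1 hPP').symm.dvd).trans hd
    rw [hI, mem_union, mem_union, mem_image] at hP'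
    rcases hP' with (hP' | hP') | ⟨v, hv, rfl⟩
    · refine hc P' hP' i ?_
      have h5 := dvd_sub hd' (hcY P' hP')
      have e : ρ + α i - (ρ - (w + c P')) = c P' - β i + (w + α i) * 2 := by
        rw [hβ]
        ring
      rw [e, h2, mul_zero, add_zero] at h5
      exact h5
    · have h5 := dvd_sub hd' (hcM P' hP')
      have e : ρ + α i - (ρ - w) = β i := by
        rw [hβ]
        ring
      rw [e] at h5
      rw [hMed, mem_filter] at hP'
      exact hP'.2.2 i h5
    · have h5 := dvd_sub hd' (hcL v hv)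
      have e : ρ + α i - (ρ - (w + v)) = v - β i + (w + α i) * 2 := by
        rw [hβ]
        ring
      rw [e, h2, mul_zero, add_zero] at h5
      rw [hL, mem_filter, mem_Mn] at hv
      have h6 : v - β i ≠ 0 := sub_ne_zero.2 (hv.2.2.2 i)
      have h7 := natDegree_le_of_dvd h5 h6
      have h8 : (v - β i).natDegree ≤ n := by
        refine (natDegree_sub_le _ _).trans (max_le hv.1.2.le ?_)
        rw [hβ]
        refine (natDegree_add_le _ _).trans (max_le hwM.2.le ?_)
        have := hαd i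
        omega
      have h9 := (mem_Irn.1 (hμ v (by rw [hL, mem_filter, mem_Mn]; exact hv))).2.1
      omega
  · -- the other elements of the window
    intro u hu hua
    obtain ⟨v, hv⟩ : ∃ v, v = u + w := ⟨_, rfl⟩
    have hvM : v ∈ Mn K n := by
      rw [mem_Mn, hv]
      have h5 : u.natDegree < w.natDegree := by
        rw [hwM.2]
        omega
      have h6 : u.degree < w.degree := by
        by_cases hu0 : u = 0
        · rw [hu0, degree_zero]
          exact bot_lt_iff_ne_bot.2 (fun h7 => hwM.1.ne_zero (degree_eq_bot.1 h7))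
        · exact degree_lt_degree h5
      exact ⟨hwM.1.add_of_right h6, by rw [natDegree_add_eq_right_of_natDegree_lt h5]; exact hwM.2⟩
    by_cases hvL : v ∈ L
    · have h5 := mem_Irn.1 (hμ v hvL)
      refine ⟨μ v, h5.2.2, dvd_prod_of_mem _ (by rw [hI, mem_union]; exact Or.inr (mem_image_of_mem _ hvL)),
        ?_, by omega⟩
      have h6 := hcL v hvL
      have e : ρ + u = (ρ - (w + v)) + (w + u) * 2 := by
        rw [hv]
        ring
      rw [e, h2, mul_zero, add_zero]
      exact h6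
    · rw [hL, mem_filter] at hvL
      by_cases h5 : ∀ P ∈ Z, ¬ P ∣ v - c P
      · by_cases h6 : ∀ P ∈ Med, ¬ P ∣ v
        · exfalso
          apply hvL
          refine ⟨hvM, h5, h6, fun i hi => hua i ?_⟩
          rw [hβ, hv, add_comm] at hi
          exact add_left_cancel hi
        · push Not at h6
          obtain ⟨P, hP, hPv⟩ := h6
          have h7 := mem_PU.1 (hMx hP)
          refine ⟨P, h7.2.1, dvd_prod_of_mem _ (by rw [hI, mem_union, mem_union]; exact Or.inl (Or.inr hP)),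
            ?_, by omega⟩
          have e : ρ + u = (ρ - w) + v := by
            rw [hv]
            ring
          rw [e]
          exact dvd_add (hcM P hP) hPv
      · push Not at h5
        obtain ⟨P, hP, hPv⟩ := h5
        have h7 := mem_PU.1 (hYx hP)
        refine ⟨P, h7.2.1, dvd_prod_of_mem _ (by rw [hI, mem_union, mem_union]; exact Or.inl (Or.inl hP)),
          ?_, by omega⟩
        have e : ρ + u = (ρ - (w + c P)) + (v - c P) + c P * 2 := by
          rw [hv]
          ring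
        rw [e, h2, mul_zero, add_zero]
        exact dvd_add (hcY P hP) hPv

end Pool.Agent.H77.WZ
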