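import Pool.Agent.H77.WZ.G7
import Pool.Agent.H77.WZ.G8

/-!
# Exact patterns in long windows and in residue classes (helper77)
-/

set_option autoImplicit false
set_option linter.all false

namespace Pool.Agent.H77.WZ

open Polynomial Finset UniqueFactorizationMonoid
open scoped Classical
open Pool.Agent.H694.Typ
open Pool.Agent.H985.Chow (mob)

variable {K : Type} [Field K] [Fintype K]

/-- the count with `D` -/
theorem exact_DM [CharP K 2] (k : ℕ) : ∃ (r A : ℕ) (c : ℝ), 0 < c ∧ 1 ≤ A ∧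
    ∀ (M a : K[X]), M.Monic → ∀ (m : ℕ), 1 ≤ m → ∃ h₀ : ℕ, ∀ h n : ℕ, h₀ ≤ h → 2 * A * (4 * Fintype.card K ^ (h + 1 - m) + M.natDegree + h + 1) ≤ n →
      ∀ α : Fin k → K[X], (∀ i, (α i).natDegree ≤ h) → (∀ i j, i ≠ j → α i ≠ α j) →
      (∀ P : K[X], P.Monic → Irreducible P → ∃ x : K[X], ∀ i, ¬ P ∣ x + α i) →
      (∀ i, IsCoprime (a + α i) M) →
      ∀ σ : Fin k → ℤ, (∀ i, σ i = 1 ∨ σ i = -1) →
      c * (Fintype.card K : ℝ) ^ (n - (4 * Fintype.card K ^ (h + 1 - m) + M.natDegree)) / (n : ℝ) ^ k ≤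
        (((Mn K n).filter (fun f => M ∣ f - a ∧ (∀ i, (Squarefree (f + α i) ∧
          Multiset.card (factors (f + α i)) ≤ r ∧
            ∀ P : K[X], Irreducible P → P ∣ f + α i → n ≤ (r + 1) * P.natDegree) ∧
              mob (f + α i) = σ i) ∧
            ∀ u : K[X], u.natDegree ≤ h → (∀ i, u ≠ α i) →
              ∃ P : K[X], Irreducible P ∧ P ∣ f + u ∧ P.natDegree ≤ h + 2)).card : ℝ) := by
  have hq := q_ge (k := K)
  obtain ⟨r, A, c, hc, hA, hfew⟩ := Pool.Agent.H985.US.us_few Pool.Agent.H985.US.s_uss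
    Pool.Agent.H985.US.s_usv K k
  refine ⟨2 * r + 1, A, c, hc, hA, fun M a hM m hm => ?_⟩
  obtain ⟨h₀, hcov⟩ := coverM (K := K) k m hm M hM.ne_zero
  refine ⟨h₀, fun h n hh hn α hαd hαi hadm haM σ hσ => ?_⟩
  obtain ⟨D₀, ρ₁, hD₀m, hD₀M, hD₀d, hD₀ρ, hD₀u⟩ := hcov h hh α hαd hαi hadm
  obtain ⟨D, hDe⟩ : ∃ D, D = D₀ * M := ⟨_, rfl⟩
  have hDm : D.Monic := by
    rw [hDe]
    exact hD₀m.mul hM
  have hDd : D.natDegree ≤ 4 * Fintype.card K ^ (h + 1 - m) + M.natDegree := by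
    rw [hDe, hD₀m.natDegree_mul hM]
    omega
  obtain ⟨ρ₀, hρ₀, hρ₀M⟩ : ∃ ρ₀ : K[X], D₀ ∣ ρ₀ - ρ₁ ∧ M ∣ ρ₀ - a := by
    obtain ⟨x, y, hxy⟩ := hD₀M
    exact ⟨ρ₁ * (y * M) + a * (x * D₀), ⟨x * (a - ρ₁), by linear_combination ρ₁ * hxy⟩,
      ⟨y * (ρ₁ - a), by linear_combination a * hxy⟩⟩
  have hDρ : ∀ P : K[X], Irreducible P → P ∣ D → ∀ i, ¬ P ∣ ρ₀ + α i := by
    intro P hP hPD i hd
    rw [hDe] at hPD
    rcases hP.prime.dvd_or_dvd hPD with h5 | h5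
    · refine hD₀ρ P hP h5 i ?_
      have e : ρ₁ + α i = (ρ₀ + α i) - (ρ₀ - ρ₁) := by ring
      rw [e]
      exact dvd_sub hd (h5.trans hρ₀)
    · have h6 : P ∣ a + α i := by
        have e : a + α i = (ρ₀ + α i) - (ρ₀ - a) := by ring
        rw [e]
        exact dvd_sub hd (h5.trans hρ₀M)
      exact hP.not_isUnit ((haM i).isUnit_of_dvd' h6 h5)
  have hDu : ∀ u : K[X], u.natDegree ≤ h → (∀ i, u ≠ α i) →
      ∃ P : K[X], Irreducible P ∧ P ∣ D ∧ P ∣ ρ₀ + u ∧ P.natDegree ≤ h + 2 := by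
    intro u hu hua
    obtain ⟨P, hP1, hP2, hP3, hP4⟩ := hD₀u u hu hua
    refine ⟨P, hP1, by rw [hDe]; exact hP2.mul_right _, ?_, hP4⟩
    have e : ρ₀ + u = (ρ₀ - ρ₁) + (ρ₁ + u) := by ring
    rw [e]
    exact dvd_add (hP2.trans hρ₀) hP3
  obtain ⟨ρ, hρ⟩ : ∃ ρ, ρ = ρ₀ %ₘ D := ⟨_, rfl⟩
  have hρd : ρ.degree < D.degree := by
    rw [hρ]
    exact degree_modByMonic_lt ρ₀ hDm
  have hρD : D ∣ ρ - ρ₀ := by
    rw [hρ]
    have := mod_dvd ρ₀ D
    rw [← dvd_neg]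
    have e : -(ρ₀ %ₘ D - ρ₀) = ρ₀ - ρ₀ %ₘ D := by ring
    rwa [e]
  obtain ⟨Q, hQ⟩ : ∃ Q, Q = 4 * Fintype.card K ^ (h + 1 - m) + M.natDegree := ⟨_, rfl⟩
  rw [← hQ] at hDd hn ⊢
  obtain ⟨d, hd⟩ : ∃ d, d = D.natDegree := ⟨_, rfl⟩
  rw [← hd] at hDd
  have hA1 : 1 * (Q + h + 1) ≤ A * (Q + h + 1) := Nat.mul_le_mul_right _ hA
  have hn' : 2 * A * (Q + h + 1) = 2 * (A * (Q + h + 1)) := by ring
  have hAd : A * (d + 1) ≤ A * (Q + h + 1) := Nat.mul_le_mul_left _ (by omega)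
  obtain ⟨n', hn1⟩ : ∃ n', n' = n - d := ⟨_, rfl⟩
  have hdn : n' + d = n := by omega
  have h2n : n ≤ 2 * n' := by omega
  -- the sifted values
  have h1 := hfew d n' (fun _ => D) (fun i => ρ + α i) (by omega) (fun i => ⟨hDm.ne_zero, hd ▸ le_rfl, by
      have h3 := hαd i
      have h4 : ρ.natDegree ≤ d := by
        rw [hd]
        exact natDegree_le_natDegree hρd.le
      have h5 := (natDegree_add_le ρ (α i)).trans (max_le_max h4 h3)
      show (ρ + α i).natDegree < n' + D.natDegree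
      rw [← hd]
      have h6 : max d h < n' + d := by
        apply max_lt <;> omega
      omega⟩) (fun i j hij he => by
      have h3 := mul_left_cancel₀ hDm.ne_zero he
      exact hαi j i hij.symm (add_left_cancel h3)) (lin_adm (fun P hPi hP i hdv => by
      have h3 := (hP.trans hρD)
      have e : ρ₀ + α i = (ρ + α i) - (ρ - ρ₀) := by ring
      refine hDρ P hPi hP i ?_
      rw [e]
      exact dvd_sub hdv h3) hadm) σ hσ
  have h3 : c * (Fintype.card K : ℝ) ^ (n - Q) / (n : ℝ) ^ k ≤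
      c * (Fintype.card K : ℝ) ^ n' / (n' : ℝ) ^ k := by
    have hn0 : (0 : ℝ) < n' := by exact_mod_cast (show 0 < n' by omega)
    have h4 : (n' : ℝ) ≤ n := by exact_mod_cast (show n' ≤ n by omega)
    have h5 : (Fintype.card K : ℝ) ^ (n - Q) ≤ (Fintype.card K : ℝ) ^ n' :=
      pow_le_pow_right₀ (by linarith) (by omega)
    exact div_le_div₀ (by positivity) (mul_le_mul_of_nonneg_left h5 hc.le) (by positivity)
      (pow_le_pow_left₀ hn0.le h4 k)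
  refine (h3.trans h1).trans (Nat.cast_le.2 ?_)
  -- the map `g ↦ D g + ρ`
  refine card_le_card_of_injOn (fun g => D * g + ρ) ?_ ?_
  · intro g hg
    rw [mem_coe, mem_filter, mem_Mn] at hg
    obtain ⟨⟨hgm, hgd⟩, hg2⟩ := hg
    have hDg : (D * g).Monic := hDm.mul hgm
    have hDgd : (D * g).natDegree = n := by
      rw [hDm.natDegree_mul hgm, hgd, ← hd]
      omega
    have hlt : ρ.degree < (D * g).degree := by
      refine lt_of_lt_of_le hρd ?_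
      rw [degree_eq_natDegree hDm.ne_zero, degree_eq_natDegree hDg.ne_zero, hDgd, ← hd]
      exact_mod_cast (show d ≤ n by omega)
    have hmm : (D * g + ρ).Monic := hDg.add_of_left hlt
    have hmd : (D * g + ρ).natDegree = n := by
      rw [natDegree_eq_of_degree_eq (degree_add_eq_left_of_degree_lt hlt)]
      exact hDgd
    rw [mem_coe, mem_filter, mem_Mn]
    refine ⟨⟨hmm, hmd⟩, ?_, fun i => ?_, fun u hu hua => ?_⟩
    · have hMD : M ∣ D := by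
        rw [hDe]
        exact dvd_mul_left _ _
      have e : D * g + ρ - a = D * g + (ρ - ρ₀) + (ρ₀ - a) := by ring
      show M ∣ D * g + ρ - a
      rw [e]
      exact dvd_add (dvd_add (hMD.mul_right _) (hMD.trans hρD)) hρ₀M
    · have e : D * g + ρ + α i = D * g + (ρ + α i) := by ring
      obtain ⟨⟨a1, a2, a3⟩, a4⟩ := hg2 i
      show (Squarefree (D * g + ρ + α i) ∧ _ ∧ _) ∧ _
      rw [e]
      refine ⟨⟨a1, by omega, fun P hP hdv => ?_⟩, a4⟩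
      have := a3 P hP hdv
      have e2 : (2 * r + 1 + 1) * P.natDegree = 2 * ((r + 1) * P.natDegree) := by ring
      rw [e2]
      omega
    · obtain ⟨P, hP1, hP2, hP3, hP4⟩ := hDu u hu hua
      refine ⟨P, hP1, ?_, hP4⟩
      have e : D * g + ρ + u = D * g + (ρ - ρ₀) + (ρ₀ + u) := by ring
      show P ∣ D * g + ρ + u
      rw [e]
      exact dvd_add (dvd_add (hP2.mul_right _) (hP2.trans hρD)) hP3
  · intro g _ g' _ he
    have h4 : D * g + ρ = D * g' + ρ := he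
    exact mul_left_cancel₀ hDm.ne_zero (add_right_cancel h4)

theorem mainM [CharP K 2] (k : ℕ) : ∃ r : ℕ, ∀ (M a : K[X]), M.Monic → ∀ C ε : ℝ, 0 < ε → ∃ (C₁ : ℝ) (N : ℕ),
    ∀ n h : ℕ, N ≤ n → (Fintype.card K : ℝ) ^ h ≤ C * n →
      ∀ α : Fin k → K[X], (∀ i, (α i).natDegree ≤ h) → (∀ i j, i ≠ j → α i ≠ α j) →
      (∀ P : K[X], P.Monic → Irreducible P → ∃ x : K[X], ∀ i, ¬ P ∣ x + α i) →
      (∀ i, IsCoprime (a + α i) M) → ∀ σ : Fin k → ℤ, (∀ i, σ i = 1 ∨ σ i = -1) →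
      (Fintype.card K : ℝ) ^ ((1 - ε) * (n : ℝ)) ≤
        (((Mn K n).filter (fun f => M ∣ f - a ∧ (∀ i, (Squarefree (f + α i) ∧
          Multiset.card (factors (f + α i)) ≤ r ∧
            ∀ P : K[X], Irreducible P → P ∣ f + α i → n ≤ (r + 1) * P.natDegree) ∧
              mob (f + α i) = σ i) ∧
            ∀ u : K[X], u.natDegree ≤ h → (∀ i, u ≠ α i) →
              ∃ P : K[X], Irreducible P ∧ P ∣ f + u ∧
                (Fintype.card K : ℝ) ^ P.natDegree ≤ C₁ * n)).card : ℝ) := by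
  have hq := q_ge (k := K)
  have hq0 : (0 : ℝ) < (Fintype.card K : ℝ) := by linarith
  obtain ⟨r, A, c, hc, hA, hex⟩ := exact_DM (K := K) k
  refine ⟨r, fun M a hMo C ε hε => ?_⟩
  obtain ⟨q, hqe⟩ : ∃ q : ℝ, q = (Fintype.card K : ℝ) := ⟨_, rfl⟩
  have hAR : (1 : ℝ) ≤ A := by exact_mod_cast hA
  obtain ⟨Cp, hCp⟩ : ∃ Cp : ℝ, Cp = |C| + 1 := ⟨_, rfl⟩
  have hCp1 : 1 ≤ Cp := by
    rw [hCp]
    have := abs_nonneg C
    linarith
  have hCC : C ≤ Cp := by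
    rw [hCp]
    have := le_abs_self C
    linarith
  obtain ⟨δ, hδ⟩ : ∃ δ : ℝ, δ = min (ε / 2) (1 / (8 * A)) / 2 := ⟨_, rfl⟩
  have hδ0 : 0 < δ := by
    rw [hδ]
    exact div_pos (lt_min (by positivity) (by positivity)) two_pos
  have hδ1 : 2 * δ ≤ ε / 2 := by
    rw [hδ, mul_div_cancel₀ _ two_ne_zero]
    exact min_le_left _ _
  have hδ2 : 2 * δ ≤ 1 / (8 * A) := by
    rw [hδ, mul_div_cancel₀ _ two_ne_zero]
    exact min_le_right _ _
  obtain ⟨N₄, hN₄⟩ := exists_nat_ge ((M.natDegree : ℝ) / δ)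
  obtain ⟨m₀, hm₀⟩ := pow_unbounded_of_one_lt (4 * q * Cp / δ) (show (1 : ℝ) < 2 by norm_num)
  obtain ⟨m, hm⟩ : ∃ m, m = m₀ + 1 := ⟨_, rfl⟩
  have hqm : 4 * q * Cp / δ ≤ q ^ m := by
    refine hm₀.le.trans ?_
    calc (2 : ℝ) ^ m₀ ≤ q ^ m₀ := pow_le_pow_left₀ (by norm_num) (by rw [hqe]; exact hq) _
      _ ≤ q ^ m := pow_le_pow_right₀ (by rw [hqe]; linarith) (by omega)
  obtain ⟨h₀, hH⟩ := hex M a hMo m (by omega)
  -- the size of `n`
  obtain ⟨N₁, hN₁⟩ := exists_nat_ge (q ^ (h₀ + m))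
  obtain ⟨N₂, hN₂⟩ := exists_nat_ge (256 * (A : ℝ) ^ 2 * Cp)
  have hb : (1 : ℝ) < q ^ (ε / 2) := by
    rw [hqe]
    exact Real.one_lt_rpow (by linarith) (by positivity)
  have hlim := tendsto_pow_const_div_const_pow_of_one_lt k hb
  obtain ⟨N₃, hN₃⟩ := Filter.eventually_atTop.1 (hlim.eventually (gt_mem_nhds hc))
  refine ⟨q ^ 2 * Cp, N₁ + N₂ + N₃ + N₄ + 1, fun n h hn hh α hαd hαi hadm haM σ hσ => ?_⟩
  have hn0 : (0 : ℝ) < n := by exact_mod_cast (show 0 < n by omega)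
  obtain ⟨h', hh'⟩ : ∃ h', h' = max h (h₀ + m) := ⟨_, rfl⟩
  have hh1 : h ≤ h' := by rw [hh']; exact le_max_left _ _
  have hh2 : h₀ + m ≤ h' := by rw [hh']; exact le_max_right _ _
  have hqh : q ^ h' ≤ Cp * n := by
    rw [hh']
    rcases le_total h (h₀ + m) with h1 | h1
    · rw [max_eq_right h1]
      have h2 : (N₁ : ℝ) ≤ n := by exact_mod_cast (show N₁ ≤ n by omega)
      nlinarith
    · rw [max_eq_left h1, hqe]
      refine hh.trans (mul_le_mul_of_nonneg_right hCC hn0.le)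
  obtain ⟨Q₀, hQ₀⟩ : ∃ Q₀, Q₀ = 4 * Fintype.card K ^ (h' + 1 - m) := ⟨_, rfl⟩
  obtain ⟨Q, hQ⟩ : ∃ Q, Q = 4 * Fintype.card K ^ (h' + 1 - m) + M.natDegree := ⟨_, rfl⟩
  have hQR : (Q₀ : ℝ) * q ^ m = 4 * q * q ^ h' := by
    rw [hQ₀, hqe]
    push_cast
    rw [mul_assoc, ← pow_add, mul_assoc, ← pow_succ']
    congr 2
    omega
  have hQn₀ : (Q₀ : ℝ) ≤ δ * n := by
    have h1 : (Q₀ : ℝ) * (4 * q * Cp / δ) ≤ 4 * q * (Cp * n) := by
      calc (Q₀ : ℝ) * (4 * q * Cp / δ) ≤ (Q₀ : ℝ) * q ^ m :=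
            mul_le_mul_of_nonneg_left hqm (Nat.cast_nonneg _)
        _ = 4 * q * q ^ h' := hQR
        _ ≤ _ := mul_le_mul_of_nonneg_left hqh (by rw [hqe]; positivity)
    have h2 : (0 : ℝ) < 4 * q * Cp := by
      rw [hqe]
      positivity
    have h3 : (Q₀ : ℝ) * (4 * q * Cp) ≤ δ * n * (4 * q * Cp) := by
      have h4 := mul_le_mul_of_nonneg_left h1 hδ0.le
      have e1 : δ * ((Q₀ : ℝ) * (4 * q * Cp / δ)) = (Q₀ : ℝ) * (4 * q * Cp) := by field_simp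
      rw [e1] at h4
      linarith
    exact le_of_mul_le_mul_right h3 h2
  have hQn : (Q : ℝ) ≤ 2 * δ * n := by
    have h1 : (Q : ℝ) = Q₀ + M.natDegree := by
      rw [hQ, hQ₀]
      push_cast
      ring
    have h2 : (N₄ : ℝ) ≤ n := by exact_mod_cast (show N₄ ≤ n by omega)
    have h3 := hN₄.trans h2
    rw [div_le_iff₀ hδ0] at h3
    rw [h1]
    linarith
  have hhn : (h' : ℝ) + 1 ≤ n / (8 * A) := by
    have h1 : ((h' : ℝ) + 1) ^ 2 ≤ 4 * q ^ h' := by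
      have h2 : ((h' : ℝ) + 1) ^ 2 ≤ 4 * 2 ^ h' := by exact_mod_cast sq_le_pow h'
      have h3 : (2 : ℝ) ^ h' ≤ q ^ h' := pow_le_pow_left₀ (by norm_num) (by rw [hqe]; exact hq) _
      linarith
    have h2 : ((h' : ℝ) + 1) ^ 2 ≤ (n / (8 * A)) ^ 2 := by
      have h3 : 4 * (Cp * n) ≤ (n / (8 * A)) ^ 2 := by
        have h4 : (N₂ : ℝ) ≤ n := by exact_mod_cast (show N₂ ≤ n by omega)
        rw [div_pow, le_div_iff₀ (by positivity)]
        have h5 : 256 * (A : ℝ) ^ 2 * Cp * (n : ℝ) ≤ (n : ℝ) * n :=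
          mul_le_mul_of_nonneg_right (hN₂.trans h4) hn0.le
        calc 4 * (Cp * n) * (8 * (A : ℝ)) ^ 2 = 256 * (A : ℝ) ^ 2 * Cp * (n : ℝ) := by ring
          _ ≤ (n : ℝ) * n := h5
          _ = (n : ℝ) ^ 2 := by ring
      linarith
    exact (abs_le_of_sq_le_sq' h2 (by positivity)).2
  have hcond : 2 * A * (Q + h' + 1) ≤ n := by
    have h1 : (2 : ℝ) * A * (Q + h' + 1) ≤ n := by
      have h2 : (Q : ℝ) ≤ n / (8 * A) := by
        refine hQn.trans ?_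
        calc 2 * δ * n ≤ 1 / (8 * A) * n := mul_le_mul_of_nonneg_right hδ2 hn0.le
          _ = n / (8 * A) := by ring
      calc (2 : ℝ) * A * (Q + h' + 1) ≤ 2 * A * (n / (8 * A) + n / (8 * A)) :=
            mul_le_mul_of_nonneg_left (by linarith) (by positivity)
        _ = n / 2 := by
            field_simp
            ring
        _ ≤ n := by linarith
    exact_mod_cast h1
  rw [hQ] at hcond
  have h1 := hH h' n (by omega) hcond α (fun i => (hαd i).trans hh1) hαi hadm haM σ hσ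
  refine le_trans ?_ (h1.trans (Nat.cast_le.2 (card_le_card ?_)))
  · rw [← hQ]
    have hN3 := (hN₃ n (by omega)).le
    rw [div_le_iff₀ (by positivity)] at hN3
    rw [le_div_iff₀ (by positivity), ← hqe]
    have h2 : q ^ ((1 - ε / 2) * (n : ℝ)) ≤ q ^ (n - Q) := by
      rw [← Real.rpow_natCast]
      refine Real.rpow_le_rpow_of_exponent_le (by rw [hqe]; linarith) ?_
      have h3 : Q ≤ n := by
        rw [hQ]
        nlinarith
      rw [Nat.cast_sub h3]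
      nlinarith
    have h3 : q ^ ((1 - ε) * (n : ℝ)) * (q ^ (ε / 2)) ^ n = q ^ ((1 - ε / 2) * (n : ℝ)) := by
      rw [← Real.rpow_natCast (q ^ (ε / 2)) n, ← Real.rpow_mul (by rw [hqe]; positivity),
        ← Real.rpow_add (by rw [hqe]; positivity)]
      congr 1
      ring
    have h4 : (0 : ℝ) ≤ q ^ ((1 - ε) * (n : ℝ)) := Real.rpow_nonneg (by rw [hqe]; positivity) _
    calc q ^ ((1 - ε) * (n : ℝ)) * (n : ℝ) ^ k ≤
        q ^ ((1 - ε) * (n : ℝ)) * (c * (q ^ (ε / 2)) ^ n) := mul_le_mul_of_nonneg_left hN3 h4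
      _ = c * q ^ ((1 - ε / 2) * (n : ℝ)) := by rw [← h3]; ring
      _ ≤ c * q ^ (n - Q) := mul_le_mul_of_nonneg_left h2 hc.le
  · intro f hf
    rw [mem_filter] at hf ⊢
    refine ⟨hf.1, hf.2.1, hf.2.2.1, fun u hu hua => ?_⟩
    obtain ⟨P, hP, hPd, hPn⟩ := hf.2.2.2 u (hu.trans hh1) hua
    refine ⟨P, hP, hPd, ?_⟩
    rw [← hqe]
    calc q ^ P.natDegree ≤ q ^ (h' + 2) := pow_le_pow_right₀ (by rw [hqe]; linarith) hPn
      _ = q ^ 2 * q ^ h' := by ring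
      _ ≤ q ^ 2 * (Cp * n) := mul_le_mul_of_nonneg_left hqh (by positivity)
      _ = q ^ 2 * Cp * n := by ring

end Pool.Agent.H77.WZ
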